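import Mathlib
import Pool.Agent.H715R2.LimitAlg

/-! # The closed group generated by the units and a one-parameter group -/

open NumberField Filter Topology H715R2

namespace Pool.Agent.K3h4.OC

variable {K : Type*} [Field K] [NumberField K]

/-- the conjugates of the `N`-th power of a unit, times the one-parameter group of `e` -/
noncomputable def rho (N : ℕ) (e : (K →+* ℂ) → ℝ) (v : (𝓞 K)ˣ) (t : ℝ) : (K →+* ℂ) → ℂˣ :=
  fun τ => Units.mk0 (τ (uu N v) * ((Real.exp (t * e τ) : ℝ) : ℂ))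
    (mul_ne_zero (tau_ne _ _ _) (by exact_mod_cast (Real.exp_pos _).ne'))

lemma rho_val (N : ℕ) (e : (K →+* ℂ) → ℝ) (v : (𝓞 K)ˣ) (t : ℝ) (τ : K →+* ℂ) :
    ((rho N e v t τ : ℂˣ) : ℂ) = τ (uu N v) * ((Real.exp (t * e τ) : ℝ) : ℂ) := rfl

lemma rho_mul (N : ℕ) (e : (K →+* ℂ) → ℝ) (v w : (𝓞 K)ˣ) (s t : ℝ) :
    rho N e (v * w) (s + t) = rho N e v s * rho N e w t := by
  funext τ
  apply Units.ext
  rw [Pi.mul_apply, Units.val_mul, rho_val, rho_val, rho_val, uu_mul, map_mul, add_mul,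
    Real.exp_add]
  push_cast
  ring

lemma rho_one (N : ℕ) (e : (K →+* ℂ) → ℝ) : rho N e (1 : (𝓞 K)ˣ) 0 = 1 := by
  funext τ
  apply Units.ext
  rw [rho_val, uu_one]
  simp

/-- the group generated by the units and the one-parameter group -/
noncomputable def grp (N : ℕ) (e : (K →+* ℂ) → ℝ) : Subgroup ((K →+* ℂ) → ℂˣ) where
  carrier := {c | ∃ v t, c = rho N e v t}
  mul_mem' := by
    rintro _ _ ⟨v, s, rfl⟩ ⟨w, t, rfl⟩
    exact ⟨v * w, s + t, (rho_mul _ _ _ _ _ _).symm⟩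
  one_mem' := ⟨1, 0, (rho_one _ _).symm⟩
  inv_mem' := by
    rintro _ ⟨v, s, rfl⟩
    refine ⟨v⁻¹, -s, ?_⟩
    refine inv_eq_of_mul_eq_one_right ?_
    rw [← rho_mul, mul_inv_cancel, add_neg_cancel, rho_one]

/-- its closure -/
noncomputable def CC (N : ℕ) (e : (K →+* ℂ) → ℝ) : Subgroup ((K →+* ℂ) → ℂˣ) :=
  (grp N e).topologicalClosure

lemma isClosed_CC (N : ℕ) (e : (K →+* ℂ) → ℝ) :
    IsClosed (CC N e : Set ((K →+* ℂ) → ℂˣ)) := Subgroup.isClosed_topologicalClosure _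

lemma rho_mem (N : ℕ) (e : (K →+* ℂ) → ℝ) (v : (𝓞 K)ˣ) (t : ℝ) : rho N e v t ∈ CC N e :=
  Subgroup.le_topologicalClosure _ ⟨v, t, rfl⟩

lemma CC_induction {N : ℕ} {e : (K →+* ℂ) → ℝ} (P : Set ((K →+* ℂ) → ℂˣ)) (hP : IsClosed P)
    (h : ∀ v t, rho N e v t ∈ P) : ∀ c ∈ CC N e, c ∈ P := by
  intro c hc
  have hc' : c ∈ closure ((grp N e : Subgroup ((K →+* ℂ) → ℂˣ)) : Set ((K →+* ℂ) → ℂˣ)) := hc
  refine closure_minimal ?_ hP hc'
  rintro _ ⟨v, t, rfl⟩
  exact h v t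

/-- units near the direction `e`, arbitrarily far -/
theorem exists_small (N : ℕ) (hN : 0 < N) (e : (K →+* ℂ) → ℝ)
    (p : InfinitePlace K → ℝ) (hp : ∀ τ, e τ = p (InfinitePlace.mk τ))
    (he : ∑ τ : K →+* ℂ, e τ = 0) (δ : ℝ) (hδ : 0 < δ) (T : ℝ) :
    ∃ (v : (𝓞 K)ˣ) (t : ℝ), T ≤ t ∧ ∀ τ, ‖((rho N e v (-t) τ : ℂˣ) : ℂ) - 1‖ < δ := by
  classical
  obtain ⟨R, hR, h⟩ := exists_unit_pow_near K N hN
  have h' : ∀ m : ℕ, ∃ v : (𝓞 K)ˣ, ∀ τ : K →+* ℂ,
      |Real.log ‖τ (uu N v)‖ - m * e τ| ≤ R := by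
    intro m
    obtain ⟨u, hu⟩ := h (fun w => (m : ℝ) * p w) (by
      rw [← Finset.mul_sum]
      have : ∑ τ : K →+* ℂ, p (InfinitePlace.mk τ) = 0 := by
        rw [← he]
        exact Finset.sum_congr rfl fun τ _ => (hp τ).symm
      rw [this, mul_zero])
    refine ⟨u, fun τ => ?_⟩
    rw [hp τ]
    exact hu τ
  choose v hv using h'
  obtain ⟨s, hs⟩ : ∃ s : ℕ → (K →+* ℂ) → ℂ,
      s = fun m τ => ((rho N e (v m) (-(m : ℝ)) τ : ℂˣ) : ℂ) := ⟨_, rfl⟩
  have hsn : ∀ m τ, Real.exp (-R) ≤ ‖s m τ‖ ∧ ‖s m τ‖ ≤ Real.exp R := by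
    intro m τ
    have h1 := abs_le.1 (hv m τ)
    have h2 : 0 < ‖τ (uu N (v m))‖ := norm_pos_iff.2 (tau_ne _ _ _)
    have h3 : ‖s m τ‖ = Real.exp (Real.log ‖τ (uu N (v m))‖ - m * e τ) := by
      rw [hs]
      simp only
      rw [rho_val, norm_mul, Complex.norm_real, Real.norm_eq_abs, abs_of_pos (Real.exp_pos _),
        sub_eq_add_neg, Real.exp_add, Real.exp_log h2, neg_mul]
    rw [h3]
    exact ⟨Real.exp_le_exp.2 h1.1, Real.exp_le_exp.2 h1.2⟩
  have hbd : ∀ m, s m ∈ Metric.closedBall (0 : (K →+* ℂ) → ℂ) (Real.exp R) := by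
    intro m
    rw [mem_closedBall_zero_iff, pi_norm_le_iff_of_nonneg (Real.exp_pos R).le]
    exact fun τ => (hsn m τ).2
  obtain ⟨s', _, σ, hσ, hlim⟩ :=
    (isCompact_closedBall (0 : (K →+* ℂ) → ℂ) (Real.exp R)).tendsto_subseq hbd
  obtain ⟨δ', hδ'⟩ : ∃ δ' : ℝ, δ' = δ * Real.exp (-R) / 2 := ⟨_, rfl⟩
  have hδ'pos : 0 < δ' := by rw [hδ']; positivity
  rw [Metric.tendsto_atTop] at hlim
  obtain ⟨k0, hk0⟩ := hlim δ' hδ'pos
  obtain ⟨l, hl0, hl⟩ : ∃ l : ℕ, T + σ k0 ≤ (σ l : ℝ) ∧ k0 ≤ l := by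
    have h1 : Tendsto (fun l : ℕ => ((σ l : ℕ) : ℝ)) atTop atTop :=
      tendsto_natCast_atTop_atTop.comp hσ.tendsto_atTop
    exact ((h1.eventually_ge_atTop (T + σ k0)).and (eventually_ge_atTop k0)).exists
  refine ⟨v (σ l) * (v (σ k0))⁻¹, (σ l : ℝ) - σ k0, by linarith, fun τ => ?_⟩
  have hinv : rho N e ((v (σ k0))⁻¹) ((σ k0 : ℕ) : ℝ) = (rho N e (v (σ k0)) (-((σ k0 : ℕ) : ℝ)))⁻¹ := by
    refine eq_inv_of_mul_eq_one_right ?_
    rw [← rho_mul, mul_inv_cancel, neg_add_cancel, rho_one]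
  have e1 : ((rho N e (v (σ l) * (v (σ k0))⁻¹) (-((σ l : ℝ) - σ k0)) τ : ℂˣ) : ℂ)
      = s (σ l) τ * (s (σ k0) τ)⁻¹ := by
    have h1 : -((σ l : ℝ) - σ k0) = -((σ l : ℕ) : ℝ) + ((σ k0 : ℕ) : ℝ) := by ring
    rw [h1, rho_mul, hinv, hs]
    simp
  have hne : s (σ k0) τ ≠ 0 := by
    rw [hs]
    exact Units.ne_zero _
  have e2 : s (σ l) τ * (s (σ k0) τ)⁻¹ - 1 = (s (σ l) τ - s (σ k0) τ) * (s (σ k0) τ)⁻¹ := by
    field_simp
  rw [e1, e2, norm_mul, norm_inv]
  have h3 : ‖s (σ l) τ - s (σ k0) τ‖ < 2 * δ' := by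
    have a1 := (dist_pi_lt_iff hδ'pos).1 (hk0 l hl) τ
    have a2 := (dist_pi_lt_iff hδ'pos).1 (hk0 k0 le_rfl) τ
    rw [← dist_eq_norm]
    have a3 := dist_triangle_right (s (σ l) τ) (s (σ k0) τ) (s' τ)
    simp only [Function.comp] at a1 a2
    linarith
  have h4 : ‖s (σ k0) τ‖⁻¹ ≤ Real.exp R := by
    rw [inv_le_comm₀ (norm_pos_iff.2 hne) (Real.exp_pos R), ← Real.exp_neg]
    exact (hsn (σ k0) τ).1
  calc ‖s (σ l) τ - s (σ k0) τ‖ * ‖s (σ k0) τ‖⁻¹
      < 2 * δ' * Real.exp R := by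
        refine lt_of_lt_of_le (mul_lt_mul_of_pos_right h3 (inv_pos.2 (norm_pos_iff.2 hne))) ?_
        exact mul_le_mul_of_nonneg_left h4 (by positivity)
    _ = δ := by
        rw [hδ']
        have : Real.exp (-R) * Real.exp R = 1 := by rw [← Real.exp_add]; simp
        linear_combination δ * this

/-! ### Fibres of the restriction of embeddings to a subfield -/

open scoped Classical in
/-- the number of embeddings which agree with a given one on a subfield -/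
lemma card_fiber (F : IntermediateField ℚ K) (φ : K →+* ℂ) :
    (Finset.univ.filter fun ψ : K →+* ℂ => ψ.comp (algebraMap F K) = φ.comp (algebraMap F K)).card
      = Module.finrank F K := by
  let _ : Algebra F ℂ := (φ.comp (algebraMap F K)).toAlgebra
  have hcard := AlgHom.card F K ℂ
  rw [← hcard, ← Fintype.card_coe]
  refine Fintype.card_congr
    { toFun := fun ψ => { ψ.1 with
        commutes' := fun r => by
          have h1 := (Finset.mem_filter.1 ψ.2).2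
          exact congrArg (fun f : F →+* ℂ => f r) h1 }
      invFun := fun ψ => ⟨ψ.toRingHom, Finset.mem_filter.2 ⟨Finset.mem_univ _, by
          ext r
          exact ψ.commutes r⟩⟩
      left_inv := fun ψ => rfl
      right_inv := fun ψ => rfl }

open scoped Classical in
/-- a union of fibres of the restriction to a subfield -/
lemma dvd_card (F : IntermediateField ℚ K) (J : Finset (K →+* ℂ))
    (hJ : ∀ φ ∈ J, ∀ ψ : K →+* ℂ, ψ.comp (algebraMap F K) = φ.comp (algebraMap F K) → ψ ∈ J) :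
    Module.finrank F K ∣ J.card := by
  rw [Finset.card_eq_sum_card_image (fun φ : K →+* ℂ => φ.comp (algebraMap F K)) J]
  refine Finset.dvd_sum fun χ hχ => ?_
  obtain ⟨φ, hφ, rfl⟩ := Finset.mem_image.1 hχ
  have h1 : J.filter (fun ψ : K →+* ℂ => ψ.comp (algebraMap F K) = φ.comp (algebraMap F K)) =
      Finset.univ.filter
        (fun ψ : K →+* ℂ => ψ.comp (algebraMap F K) = φ.comp (algebraMap F K)) := by
    ext ψ
    simp only [Finset.mem_filter, Finset.mem_univ, true_and]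
    exact ⟨fun h => h.2, fun h => ⟨hJ φ hφ ψ h, h⟩⟩
  rw [h1, card_fiber]

/-- A set of embeddings whose cardinality is prime to the degree is not a union of fibres. -/
lemma top_of_coprime (J : Finset (K →+* ℂ)) (hco : Nat.Coprime J.card (Module.finrank ℚ K))
    (F : IntermediateField ℚ K) (hJ : ∀ φ ∈ J, ∀ ψ : K →+* ℂ,
      ψ.comp (algebraMap F K) = φ.comp (algebraMap F K) → ψ ∈ J) : F = ⊤ := by
  have hdvd1 : Module.finrank F K ∣ J.card := dvd_card F J hJ
  have hdvd2 : Module.finrank F K ∣ Module.finrank ℚ K :=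
    ⟨Module.finrank ℚ F, by rw [mul_comm]; exact (Module.finrank_mul_finrank ℚ F K).symm⟩
  have hone : Module.finrank F K = 1 :=
    Nat.eq_one_of_dvd_one (hco ▸ Nat.dvd_gcd hdvd1 hdvd2)
  exact IntermediateField.finrank_eq_one_iff_eq_top.1 hone

/-- A subfield which contains an element separating the embeddings is everything. -/
lemma top_of_mem (lam : K) (hinj : Function.Injective (fun τ : K →+* ℂ => τ lam))
    (F : IntermediateField ℚ K) (hlam : lam ∈ F) : F = ⊤ := by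
  classical
  obtain ⟨φ⟩ : Nonempty (K →+* ℂ) := inferInstance
  have h1 := card_fiber F φ
  have h2 : (Finset.univ.filter fun ψ : K →+* ℂ =>
      ψ.comp (algebraMap F K) = φ.comp (algebraMap F K)) = {φ} := by
    ext ψ
    rw [Finset.mem_filter, Finset.mem_singleton]
    constructor
    · rintro ⟨-, h⟩
      apply hinj
      exact congrArg (fun f : F →+* ℂ => f ⟨lam, hlam⟩) h
    · rintro rfl
      exact ⟨Finset.mem_univ _, rfl⟩
  rw [h2, Finset.card_singleton] at h1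
  exact IntermediateField.finrank_eq_one_iff_eq_top.1 h1.symm

/-- the relative trace in terms of embeddings -/
lemma trace_embed (F : IntermediateField ℚ K) (τ : K →+* ℂ) (z : K) : by
    classical
    exact τ (algebraMap F K (Algebra.trace F K z)) =
      ∑ ψ ∈ Finset.univ.filter (fun ψ : K →+* ℂ =>
        ψ.comp (algebraMap F K) = τ.comp (algebraMap F K)), ψ z := by
  classical
  let _ : Algebra F ℂ := (τ.comp (algebraMap F K)).toAlgebra
  have h1 := trace_eq_sum_embeddings (K := F) (L := K) ℂ (x := z)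
  have h2 : algebraMap F ℂ (Algebra.trace F K z) = τ (algebraMap F K (Algebra.trace F K z)) := rfl
  rw [← h2, h1]
  refine (Finset.sum_bij (fun (ψ : K →ₐ[F] ℂ) _ => ψ.toRingHom) ?_ ?_ ?_ ?_)
  · intro ψ _
    rw [Finset.mem_filter]
    refine ⟨Finset.mem_univ _, ?_⟩
    ext r
    exact ψ.commutes r
  · intro ψ _ ψ' _ h
    ext x
    exact congrArg (fun f : K →+* ℂ => f x) h
  · intro ψ hψ
    have h3 := (Finset.mem_filter.1 hψ).2
    exact ⟨{ ψ with commutes' := fun r => congrArg (fun f : F →+* ℂ => f r) h3 },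
      Finset.mem_univ _, rfl⟩
  · intro ψ _
    rfl

/-- Separation: the direction `e` takes on `J` values which it does not take outside `J`, and `J`
is not a union of fibres of the restriction to a proper subfield; then the tangent space separates
the embeddings. -/
theorem separation (N : ℕ) (hN : 0 < N) (e : (K →+* ℂ) → ℝ)
    (p : InfinitePlace K → ℝ) (hp : ∀ τ, e τ = p (InfinitePlace.mk τ))
    (he : ∑ τ : K →+* ℂ, e τ = 0) (J : Finset (K →+* ℂ))
    (hJ : ∀ φ ∈ J, ∀ ψ : K →+* ℂ, e ψ = e φ → ψ ∈ J)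
    (hF' : ∀ F : IntermediateField ℚ K, (∀ φ ∈ J, ∀ ψ : K →+* ℂ,
      ψ.comp (algebraMap F K) = φ.comp (algebraMap F K) → ψ ∈ J) → F = ⊤)
    (τ τ' : K →+* ℂ) (hne : τ ≠ τ') :
    ∃ η ∈ tang (CC N e), η τ ≠ η τ' := by
  classical
  by_contra hcon
  push Not at hcon
  obtain ⟨δ0, hδ0, h0⟩ := exists_nhds_tang (CC N e) (isClosed_CC N e)
  obtain ⟨δ1, hδ1, h1⟩ := exists_log (ι := K →+* ℂ) δ0 hδ0
  -- the direction `e` itself is tangent
  obtain ⟨eC, heC⟩ : ∃ eC : (K →+* ℂ) → ℂ, eC = fun τ => ((e τ : ℝ) : ℂ) := ⟨_, rfl⟩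
  have hrt : ∀ t : ℝ, rho N e (1 : (𝓞 K)ˣ) t = expM (t • eC) := by
    intro t
    funext σ
    apply Units.ext
    rw [rho_val, uu_one, map_one, one_mul, coe_expM, heC]
    simp only [Pi.smul_apply, Complex.real_smul]
    push_cast
    rfl
  have hetan : eC ∈ tang (CC N e) := by
    rw [mem_tang]
    intro t
    rw [← hrt]
    exact rho_mem _ _ _ _
  obtain ⟨F, hF⟩ : ∃ F : IntermediateField ℚ K, F = eqF τ τ' := ⟨_, rfl⟩
  -- the fibres of the restriction to `F` are in the level sets of `e`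
  have hfib : ∀ φ ψ : K →+* ℂ, ψ.comp (algebraMap F K) = φ.comp (algebraMap F K) →
      e ψ = e φ := by
    intro φ ψ hψ
    by_contra hneq
    have hpos : 0 < |e ψ - e φ| := abs_pos.2 (sub_ne_zero.2 hneq)
    obtain ⟨δ, hδ⟩ : ∃ δ : ℝ, δ = min δ1 (1 / 2) := ⟨_, rfl⟩
    have hδpos : 0 < δ := by rw [hδ]; exact lt_min hδ1 (by norm_num)
    obtain ⟨v, t, ht, hv⟩ := exists_small N hN e p hp he δ hδpos (2 / |e ψ - e φ|)
    obtain ⟨η, hη, hη'⟩ := h1 (rho N e v (-t)) (fun i => (hv i).trans_le (by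
      rw [hδ]; exact min_le_left _ _))
    have hη2 := h0 η hη (by rw [hη']; exact rho_mem _ _ _ _)
    have h2 := hcon η hη2
    have h3 : ((rho N e v (-t) τ : ℂˣ) : ℂ) = ((rho N e v (-t) τ' : ℂˣ) : ℂ) := by
      rw [← hη', coe_expM, coe_expM, h2]
    have h4 := hcon eC hetan
    have h5 : e τ = e τ' := by
      simp only [heC] at h4
      exact_mod_cast h4
    rw [rho_val, rho_val, h5] at h3
    have h6 : τ (uu N v) = τ' (uu N v) :=
      mul_right_cancel₀ (by exact_mod_cast (Real.exp_pos _).ne') h3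
    have h7 : uu N v ∈ F := by rw [hF]; exact h6
    have h8 : ψ (uu N v) = φ (uu N v) := congrArg (fun f : F →+* ℂ => f ⟨uu N v, h7⟩) hψ
    have hsz : ∀ χ : K →+* ℂ, |Real.log ‖χ (uu N v)‖ - t * e χ| < 1 := by
      intro χ
      have a1 := hv χ
      have a2 : ‖((rho N e v (-t) χ : ℂˣ) : ℂ) - 1‖ < 1 / 2 :=
        a1.trans_le (by rw [hδ]; exact min_le_right _ _)
      have a3 : ‖((rho N e v (-t) χ : ℂˣ) : ℂ)‖ = ‖χ (uu N v)‖ * Real.exp (-t * e χ) := by
        rw [rho_val, norm_mul, Complex.norm_real, Real.norm_eq_abs, abs_of_pos (Real.exp_pos _)]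
      have a4 : 0 < ‖χ (uu N v)‖ := norm_pos_iff.2 (tau_ne _ _ _)
      have a5 := norm_sub_norm_le (1 : ℂ) ((rho N e v (-t) χ : ℂˣ) : ℂ)
      have a6 := norm_sub_norm_le ((rho N e v (-t) χ : ℂˣ) : ℂ) (1 : ℂ)
      rw [norm_one, norm_sub_rev] at a5
      rw [norm_one] at a6
      have a7 : Real.log (‖χ (uu N v)‖ * Real.exp (-t * e χ)) =
          Real.log ‖χ (uu N v)‖ - t * e χ := by
        rw [Real.log_mul a4.ne' (Real.exp_pos _).ne', Real.log_exp]
        ring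
      rw [← a7, ← a3, abs_lt]
      have a8 : (1 : ℝ) / 2 < ‖((rho N e v (-t) χ : ℂˣ) : ℂ)‖ := by linarith
      have a9 : ‖((rho N e v (-t) χ : ℂˣ) : ℂ)‖ < 3 / 2 := by linarith
      constructor
      · rw [Real.lt_log_iff_exp_lt (by linarith)]
        refine lt_trans ?_ a8
        have e1 : Real.exp (-1) < 0.3678794412 := Real.exp_neg_one_lt_d9
        norm_num at e1 ⊢
        linarith
      · rw [Real.log_lt_iff_lt_exp (by linarith)]
        refine a9.trans ?_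
        have e1 := Real.exp_one_gt_d9
        norm_num at e1 ⊢
        linarith
    have b1 := hsz ψ
    have b2 := hsz φ
    rw [h8] at b1
    rw [abs_lt] at b1 b2
    have b3 : |t * (e ψ - e φ)| < 2 := by
      rw [abs_lt]
      constructor <;> nlinarith [b1.1, b1.2, b2.1, b2.2]
    rw [abs_mul] at b3
    have b4 : 2 ≤ |t| * |e ψ - e φ| := by
      have c1 : 2 / |e ψ - e φ| ≤ |t| := ht.trans (le_abs_self t)
      rwa [div_le_iff₀ hpos] at c1
    linarith
  have htop : F = ⊤ := hF' F fun φ hφ ψ hψ => hJ φ hφ ψ (hfib φ ψ hψ)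
  apply hne
  ext z
  have : z ∈ F := by rw [htop]; trivial
  rw [hF] at this
  exact this

end Pool.Agent.K3h4.OC
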