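import Mathlib
import Pool.Agent.K3h4.OC.Grp
import Pool.Agent.H715R2.MinimalSet

/-! # Rows which span a subspace spanned by embeddings are multiples of single embeddings -/

open NumberField Filter Topology H715R2 Matrix

namespace Pool.Agent.K3h4.OC

variable {K : Type*} [Field K] [NumberField K] {d : ℕ}

/-- The situation: the rows of `h` in `I` are combinations of the embeddings in `J`, with
`J.card = I.card`, and `J` is not a union of fibres of the restriction to a proper subfield. -/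
structure Blk (K : Type*) [Field K] [NumberField K] (d : ℕ) where
  b : Module.Basis (Fin d) ℚ K
  N : ℕ
  hN : 0 < N
  act : ∀ u : (𝓞 K)ˣ, ∀ x : Fin d → ℤ, ∃ y : Fin d → ℤ,
      ∑ j, (y j : ℚ) • b j = (((u ^ N : (𝓞 K)ˣ) : 𝓞 K) : K) * ∑ j, (x j : ℚ) • b j
  h : Matrix (Fin d) (Fin d) ℝ
  hdet : h.det ≠ 0
  H : Fin d → (K →+* ℂ) → ℂ
  hH : ∀ i j, (h i j : ℂ) = ∑ τ : K →+* ℂ, H i τ * τ (b j)
  ν : ℝ
  hν : 0 < ν
  hnu : HasNu h ν
  I : Finset (Fin d)
  J : Finset (K →+* ℂ)
  hIJ : ∀ i ∈ I, ∀ τ, τ ∉ J → H i τ = 0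
  hcard : J.card = I.card
  hJc : ∀ τ ∈ J, ComplexEmbedding.conjugate τ ∈ J
  hF : ∀ F : IntermediateField ℚ K, (∀ φ ∈ J, ∀ ψ : K →+* ℂ,
      ψ.comp (algebraMap F K) = φ.comp (algebraMap F K) → ψ ∈ J) → F = ⊤

namespace Blk

variable (D : Blk K d)

lemma card_emb (D : Blk K d) : Fintype.card (K →+* ℂ) = d := by
  rw [NumberField.Embeddings.card K ℂ, Module.finrank_eq_card_basis D.b, Fintype.card_fin]

lemma lin (i : Fin d) (x : Fin d → ℝ) :
    ((∑ j, D.h i j * x j : ℝ) : ℂ) = ∑ τ : K →+* ℂ, D.H i τ * ev D.b τ x := by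
  push_cast
  simp only [D.hH, ev, Finset.sum_mul, Finset.mul_sum]
  rw [Finset.sum_comm]
  refine Finset.sum_congr rfl fun τ _ => Finset.sum_congr rfl fun j _ => ?_
  ring

lemma act' (v : (𝓞 K)ˣ) (m : Fin d → ℤ) : ∃ y : Fin d → ℤ, ∀ τ : K →+* ℂ,
    ev D.b τ (iR y) = τ (uu D.N v) * ev D.b τ (iR m) := by
  obtain ⟨y, hy⟩ := D.act v m
  refine ⟨y, fun τ => ?_⟩
  rw [ev_int, ev_int, hy, map_mul]
  rfl

lemma ev_ne (m : Fin d → ℤ) (hm : m ≠ 0) (τ : K →+* ℂ) : ev D.b τ (iR m) ≠ 0 := by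
  rw [ev_int]
  intro h0
  apply hm
  have h1 : ∑ j, (m j : ℚ) • D.b j = 0 := (map_eq_zero τ).1 h0
  have h2 := Fintype.linearIndependent_iff.1 D.b.linearIndependent (fun j => (m j : ℚ)) h1
  funext j
  exact_mod_cast h2 j

lemma y_ne {v : (𝓞 K)ˣ} {m y : Fin d → ℤ} (hm : m ≠ 0)
    (hy : ∀ τ : K →+* ℂ, ev D.b τ (iR y) = τ (uu D.N v) * ev D.b τ (iR m)) : y ≠ 0 := by
  rintro rfl
  have hne : Nonempty (K →+* ℂ) := inferInstance
  obtain ⟨τ⟩ := hne
  have h1 := hy τ
  have h2 : ev D.b τ (iR (0 : Fin d → ℤ)) = 0 := by simp [ev, iR]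
  rw [h2] at h1
  exact mul_ne_zero (tau_ne _ _ _) (D.ev_ne m hm τ) h1.symm

open scoped Classical in
/-- the direction -/
noncomputable def e (τ : K →+* ℂ) : ℝ := if τ ∈ D.J then -((d : ℝ) - D.I.card) else D.I.card

open scoped Classical in
/-- the value of the direction on the support of the main part of a row -/
noncomputable def E (i : Fin d) : ℝ := if i ∈ D.I then -((d : ℝ) - D.I.card) else D.I.card

lemma sum_e : ∑ τ : K →+* ℂ, D.e τ = 0 := by
  classical
  unfold e
  rw [Finset.sum_ite]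
  simp only [Finset.sum_const, nsmul_eq_mul]
  have h1 : (Finset.univ.filter fun τ : K →+* ℂ => τ ∈ D.J) = D.J := by ext; simp
  have h2 : (Finset.univ.filter fun τ : K →+* ℂ => τ ∉ D.J) = D.Jᶜ := by ext; simp
  rw [h1, h2, Finset.card_compl, D.card_emb, D.hcard]
  have h3 : D.I.card ≤ d := by
    have := Finset.card_le_univ D.I
    simpa using this
  rw [Nat.cast_sub h3]
  ring

lemma sum_E : ∑ i : Fin d, D.E i = 0 := by
  classical
  unfold E
  rw [Finset.sum_ite]
  simp only [Finset.sum_const, nsmul_eq_mul]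
  have h1 : (Finset.univ.filter fun i : Fin d => i ∈ D.I) = D.I := by ext; simp
  have h2 : (Finset.univ.filter fun i : Fin d => i ∉ D.I) = D.Iᶜ := by ext; simp
  rw [h1, h2, Finset.card_compl, Fintype.card_fin]
  have h3 : D.I.card ≤ d := by
    have := Finset.card_le_univ D.I
    simpa using this
  rw [Nat.cast_sub h3]
  ring

lemma J_conj_iff (τ : K →+* ℂ) : ComplexEmbedding.conjugate τ ∈ D.J ↔ τ ∈ D.J := by
  constructor
  · intro h
    have h1 := D.hJc _ h
    have h2 : ComplexEmbedding.conjugate (ComplexEmbedding.conjugate τ) = τ := star_involutive τ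
    rwa [h2] at h1
  · exact D.hJc τ

lemma e_place : ∃ p : InfinitePlace K → ℝ, ∀ τ, D.e τ = p (InfinitePlace.mk τ) := by
  classical
  refine ⟨fun w => D.e w.embedding, fun τ => ?_⟩
  rcases InfinitePlace.embedding_mk_eq τ with h | h
  · simp only; rw [h]
  · simp only; rw [h]
    unfold e
    simp only [D.J_conj_iff]

open scoped Classical in
/-- the coefficients of the limit rows -/
noncomputable def W (i : Fin d) (τ : K →+* ℂ) : ℂ :=
  if i ∈ D.I then D.H i τ else if τ ∈ D.J then 0 else D.H i τ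

/-- the limit rows -/
noncomputable def Lam (i : Fin d) (c : (K →+* ℂ) → ℂˣ) (x : Fin d → ℝ) : ℂ :=
  ∑ τ : K →+* ℂ, D.W i τ * ((c τ : ℂˣ) : ℂ) * ev D.b τ x

lemma continuous_Lam (i : Fin d) (x : Fin d → ℝ) : Continuous fun c => D.Lam i c x := by
  unfold Lam
  refine continuous_finsetSum _ fun τ _ => ?_
  refine (continuous_const.mul ?_).mul continuous_const
  exact Units.continuous_val.comp (continuous_apply τ)

lemma exp_zero_of (s : ℝ) : ∏ i : Fin d, Real.exp (s * D.E i) = 1 := by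
  rw [← Real.exp_sum, ← Finset.mul_sum, D.sum_E, mul_zero, Real.exp_zero]

/-- lower bound for the product of the limit rows -/
theorem lower_rho (hd : 0 < d) (v : (𝓞 K)ˣ) (t : ℝ) (m : Fin d → ℤ) (hm : m ≠ 0) :
    D.ν ≤ ∏ i, ‖D.Lam i (rho D.N D.e v t) (iR m)‖ := by
  classical
  obtain ⟨p, hp⟩ := D.e_place
  have h := fun k : ℕ => exists_small D.N D.hN D.e p hp D.sum_e (1 / ((k : ℝ) + 1))
    (by positivity) (k : ℝ)
  choose w s hs hw using h
  choose y hy using fun k : ℕ => D.act' (v * w k) m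
  have hval : ∀ k, D.ν ≤ ∏ i, ‖((∑ j, D.h i j * iR (y k) j : ℝ) : ℂ) *
      ((Real.exp ((t - s k) * D.E i) : ℝ) : ℂ)‖ := by
    intro k
    have h1 := D.hnu (y k) (D.y_ne hm (hy k))
    have h2 : ∏ i, ‖((∑ j, D.h i j * iR (y k) j : ℝ) : ℂ) *
        ((Real.exp ((t - s k) * D.E i) : ℝ) : ℂ)‖ = |FF D.h (iR (y k))| := by
      have h3 : ∀ i, ‖((∑ j, D.h i j * iR (y k) j : ℝ) : ℂ) *
          ((Real.exp ((t - s k) * D.E i) : ℝ) : ℂ)‖ =
          |∑ j, D.h i j * iR (y k) j| * Real.exp ((t - s k) * D.E i) := by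
        intro i
        rw [norm_mul, Complex.norm_real, Complex.norm_real, Real.norm_eq_abs, Real.norm_eq_abs,
          abs_of_pos (Real.exp_pos _)]
      rw [Finset.prod_congr rfl fun i _ => h3 i, Finset.prod_mul_distrib, D.exp_zero_of, mul_one,
        FF, Finset.abs_prod]
    rw [h2]
    exact h1
  have hs' : Tendsto s atTop atTop := tendsto_atTop_mono hs tendsto_natCast_atTop_atTop
  have hwlim : ∀ τ, Tendsto (fun k => ((rho D.N D.e (w k) (-(s k)) τ : ℂˣ) : ℂ)) atTop (𝓝 1) := by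
    intro τ
    rw [tendsto_iff_norm_sub_tendsto_zero]
    exact squeeze_zero (fun k => norm_nonneg _) (fun k => (hw k τ).le)
      tendsto_one_div_add_atTop_nhds_zero_nat
  -- the rows converge
  have hrow : ∀ i, Tendsto (fun k => ((∑ j, D.h i j * iR (y k) j : ℝ) : ℂ) *
      ((Real.exp ((t - s k) * D.E i) : ℝ) : ℂ)) atTop
      (𝓝 (D.Lam i (rho D.N D.e v t) (iR m))) := by
    intro i
    have h1 : ∀ k, ((∑ j, D.h i j * iR (y k) j : ℝ) : ℂ) *
        ((Real.exp ((t - s k) * D.E i) : ℝ) : ℂ) =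
        ∑ τ : K →+* ℂ, (D.H i τ * ((rho D.N D.e v t τ : ℂˣ) : ℂ) * ev D.b τ (iR m)) *
          (((rho D.N D.e (w k) (-(s k)) τ : ℂˣ) : ℂ) *
            ((Real.exp ((t - s k) * (D.E i - D.e τ)) : ℝ) : ℂ)) := by
      intro k
      rw [D.lin, Finset.sum_mul]
      refine Finset.sum_congr rfl fun τ _ => ?_
      rw [hy, uu_mul, map_mul, rho_val, rho_val]
      have h2 : ((Real.exp ((t - s k) * D.E i) : ℝ) : ℂ) =
          ((Real.exp (t * D.e τ) : ℝ) : ℂ) * ((Real.exp (-(s k) * D.e τ) : ℝ) : ℂ) *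
            ((Real.exp ((t - s k) * (D.E i - D.e τ)) : ℝ) : ℂ) := by
        rw [← Complex.ofReal_mul, ← Complex.ofReal_mul, ← Real.exp_add, ← Real.exp_add]
        congr 2
        ring
      rw [h2]
      ring
    simp only [h1]
    unfold Lam
    refine tendsto_finsetSum _ fun τ _ => ?_
    -- termwise
    by_cases hz : D.W i τ = D.H i τ
    · rw [hz]
      by_cases hH0 : D.H i τ = 0
      · rw [hH0]; simp
      have hE : D.E i = D.e τ := by
        unfold W at hz
        unfold E e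
        by_cases hi : i ∈ D.I
        · rw [if_pos hi]
          have : τ ∈ D.J := by
            by_contra hτ
            exact hH0 (D.hIJ i hi τ hτ)
          rw [if_pos this]
        · rw [if_neg hi] at hz ⊢
          by_cases hτ : τ ∈ D.J
          · rw [if_pos hτ] at hz
            exact absurd hz.symm hH0
          · rw [if_neg hτ]
      have h3 : ∀ k, ((Real.exp ((t - s k) * (D.E i - D.e τ)) : ℝ) : ℂ) = 1 := by
        intro k
        rw [hE, sub_self, mul_zero, Real.exp_zero, Complex.ofReal_one]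
      simp only [h3, mul_one]
      have h4 := (hwlim τ).const_mul
        (D.H i τ * ((rho D.N D.e v t τ : ℂˣ) : ℂ) * ev D.b τ (iR m))
      rw [mul_one] at h4
      exact h4
    · -- the weight is zero
      have hcase : i ∉ D.I ∧ τ ∈ D.J := by
        unfold W at hz
        by_cases hi : i ∈ D.I
        · rw [if_pos hi] at hz; exact absurd rfl hz
        · rw [if_neg hi] at hz
          by_cases hτ : τ ∈ D.J
          · exact ⟨hi, hτ⟩
          · rw [if_neg hτ] at hz; exact absurd rfl hz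
      have hW : D.W i τ = 0 := by
        unfold W
        rw [if_neg hcase.1, if_pos hcase.2]
      have hE : D.E i - D.e τ = d := by
        unfold E e
        rw [if_neg hcase.1, if_pos hcase.2]
        ring
      rw [hW, zero_mul, zero_mul, hE]
      have hdr : (0 : ℝ) < d := by exact_mod_cast hd
      have h5 : Tendsto (fun k => Real.exp ((t - s k) * (d : ℝ))) atTop (𝓝 0) := by
        refine Real.tendsto_exp_atBot.comp ?_
        refine Tendsto.atBot_mul_const hdr ?_
        have := tendsto_neg_atTop_atBot.comp hs'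
        have h6 := tendsto_atBot_add_const_left atTop t this
        refine h6.congr fun k => ?_
        simp only [Function.comp]
        ring
      have h6 : Tendsto (fun k => ((Real.exp ((t - s k) * (d : ℝ)) : ℝ) : ℂ)) atTop (𝓝 0) := by
        have := (Complex.continuous_ofReal.tendsto 0).comp h5
        rw [Complex.ofReal_zero] at this
        exact this
      have h7 := ((hwlim τ).mul h6).const_mul
        (D.H i τ * ((rho D.N D.e v t τ : ℂˣ) : ℂ) * ev D.b τ (iR m))
      rw [mul_zero, mul_zero] at h7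
      exact h7
  have hprod : Tendsto (fun k => ∏ i, ‖((∑ j, D.h i j * iR (y k) j : ℝ) : ℂ) *
      ((Real.exp ((t - s k) * D.E i) : ℝ) : ℂ)‖) atTop
      (𝓝 (∏ i, ‖D.Lam i (rho D.N D.e v t) (iR m)‖)) :=
    tendsto_finsetProd _ fun i _ => (hrow i).norm
  exact ge_of_tendsto' hprod hval

theorem lower (hd : 0 < d) (c : (K →+* ℂ) → ℂˣ) (hc : c ∈ CC D.N D.e) (m : Fin d → ℤ)
    (hm : m ≠ 0) : D.ν ≤ ∏ i, ‖D.Lam i c (iR m)‖ := by
  have hcl : IsClosed {c : (K →+* ℂ) → ℂˣ | D.ν ≤ ∏ i, ‖D.Lam i c (iR m)‖} :=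
    isClosed_le continuous_const
      (continuous_finsetProd _ fun i _ => (D.continuous_Lam i (iR m)).norm)
  exact CC_induction _ hcl (fun v t => D.lower_rho hd v t m hm) c hc

lemma W_of_mem {i : Fin d} (hi : i ∈ D.I) (τ : K →+* ℂ) : D.W i τ = D.H i τ := by
  classical
  unfold W
  rw [if_pos hi]

lemma lam_int_real (i : Fin d) (hi : i ∈ D.I) (c : (K →+* ℂ) → ℂˣ) (hc : c ∈ CC D.N D.e)
    (m : Fin d → ℤ) : (D.Lam i c (iR m)).im = 0 := by
  classical
  have hcl : IsClosed {c : (K →+* ℂ) → ℂˣ | (D.Lam i c (iR m)).im = 0} :=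
    isClosed_eq (Complex.continuous_im.comp (D.continuous_Lam i (iR m))) continuous_const
  refine CC_induction _ hcl (fun v t => ?_) c hc
  obtain ⟨y, hy⟩ := D.act' v m
  have h1 : D.Lam i (rho D.N D.e v t) (iR m) =
      ((∑ j, D.h i j * iR y j : ℝ) : ℂ) * ((Real.exp (t * D.E i) : ℝ) : ℂ) := by
    rw [D.lin, Finset.sum_mul, Lam]
    refine Finset.sum_congr rfl fun τ _ => ?_
    rw [D.W_of_mem hi, rho_val, hy]
    by_cases hτ : τ ∈ D.J
    · have : D.E i = D.e τ := by
        unfold E e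
        rw [if_pos hi, if_pos hτ]
      rw [this]
      ring
    · rw [D.hIJ i hi τ hτ]; ring
  show (D.Lam i (rho D.N D.e v t) (iR m)).im = 0
  rw [h1, ← Complex.ofReal_mul, Complex.ofReal_im]

lemma Lam_basis (i : Fin d) (c : (K →+* ℂ) → ℂˣ) (x : Fin d → ℝ) :
    D.Lam i c x = ∑ j, (x j : ℂ) * D.Lam i c (iR (Pi.single j 1)) := by
  have h1 : ∀ j (τ : K →+* ℂ), ev D.b τ (iR (Pi.single j 1)) = τ (D.b j) := by
    intro j τ
    unfold ev
    rw [Finset.sum_eq_single j]
    · simp [iR]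
    · intro k _ hk; simp [iR, hk]
    · simp
  unfold Lam
  simp only [h1, Finset.mul_sum]
  rw [Finset.sum_comm]
  refine Finset.sum_congr rfl fun τ _ => ?_
  rw [ev, Finset.mul_sum]
  refine Finset.sum_congr rfl fun j _ => ?_
  ring

lemma lam_real (i : Fin d) (hi : i ∈ D.I) (c : (K →+* ℂ) → ℂˣ) (hc : c ∈ CC D.N D.e)
    (x : Fin d → ℝ) : (D.Lam i c x).im = 0 := by
  rw [D.Lam_basis, Complex.im_sum]
  refine Finset.sum_eq_zero fun j _ => ?_
  rw [Complex.mul_im, D.lam_int_real i hi c hc, Complex.ofReal_im]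
  ring

/-- the real functional -/
noncomputable def fr (i : Fin d) (c : (K →+* ℂ) → ℂˣ) : (Fin d → ℝ) →ₗ[ℝ] ℝ where
  toFun x := (D.Lam i c x).re
  map_add' x y := by
    simp only [Lam, ev_add, mul_add, Finset.sum_add_distrib, Complex.add_re]
  map_smul' a x := by
    have h1 : D.Lam i c (a • x) = a * D.Lam i c x := by
      simp only [Lam, ev_smul, Finset.mul_sum]
      refine Finset.sum_congr rfl fun τ _ => ?_
      ring
    rw [h1]
    simp

lemma fr_apply (i : Fin d) (c : (K →+* ℂ) → ℂˣ) (x : Fin d → ℝ) :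
    D.fr i c x = (D.Lam i c x).re := rfl

lemma Lam_one (i : Fin d) (hi : i ∈ D.I) (x : Fin d → ℝ) :
    D.Lam i 1 x = ((∑ j, D.h i j * x j : ℝ) : ℂ) := by
  rw [D.lin, Lam]
  refine Finset.sum_congr rfl fun τ _ => ?_
  rw [D.W_of_mem hi]
  simp

/-- **The rows in `I` are multiples of single embeddings.** -/
theorem single (hd : 2 ≤ d) (i : Fin d) (hi : i ∈ D.I) (τ τ' : K →+* ℂ) (hne : τ ≠ τ') :
    D.H i τ = 0 ∨ D.H i τ' = 0 := by
  classical
  by_contra hcon
  push Not at hcon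
  obtain ⟨h1, h2⟩ := hcon
  obtain ⟨p, hp⟩ := D.e_place
  have hdpos : (0 : ℝ) < d := by
    have : 0 < d := by omega
    exact_mod_cast this
  obtain ⟨η, hη, hητ⟩ := separation D.N D.hN D.e p hp D.sum_e D.J (by
      intro φ hφ ψ hψ
      by_contra hcon
      unfold e at hψ
      rw [if_pos hφ, if_neg hcon] at hψ
      linarith) D.hF τ τ' hne
  obtain ⟨t₀, ht₀⟩ : ∃ t₀ : ℝ, Complex.exp (t₀ * (η τ - η τ')) ≠ 1 := by
    by_contra hcon
    push Not at hcon
    exact hητ (sub_eq_zero.1 (exp_all_one _ hcon))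
  have hmem : ∀ s : ℝ, expM (s • η) ∈ CC D.N D.e := fun s => hη s
  have hneC : ((expM (t₀ • η) τ : ℂˣ) : ℂ) ≠ ((expM (t₀ • η) τ' : ℂˣ) : ℂ) := by
    intro heq
    apply ht₀
    rw [coe_expM, coe_expM] at heq
    simp only [Pi.smul_apply, Complex.real_smul] at heq
    rw [mul_sub, Complex.exp_sub, heq, div_self (Complex.exp_ne_zero _)]
  -- functionals
  have hLf : ∀ c ∈ CC D.N D.e, ∀ x, D.Lam i c x = (D.fr i c x : ℂ) := by
    intro c hc x
    rw [D.fr_apply]
    exact (Complex.ext (by simp) (by simp [D.lam_real i hi c hc x]))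
  have hf : D.fr i 1 ≠ 0 := by
    intro h0
    apply D.hdet
    refine Matrix.det_eq_zero_of_row_eq_zero i fun j => ?_
    have h3 := congrArg (fun f => f (iR (Pi.single j 1))) h0
    simp only [LinearMap.zero_apply] at h3
    rw [D.fr_apply, D.Lam_one i hi, Complex.ofReal_re, Finset.sum_eq_single j] at h3
    · simpa [iR] using h3
    · intro k _ hk; simp [iR, hk]
    · simp
  have hg : ¬ ∃ κ : ℝ, 0 ≤ κ ∧ D.fr i (expM (t₀ • η)) = κ • D.fr i 1 := by
    rintro ⟨κ, -, hκ⟩
    have h3 : ∀ x, D.Lam i (expM (t₀ • η)) x = κ * D.Lam i 1 x := by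
      intro x
      rw [hLf _ (hmem t₀), hLf _ (CC D.N D.e).one_mem, hκ]
      simp
    have h4 := embed_indep D.b
      (fun σ => D.H i σ * (((expM (t₀ • η) σ : ℂˣ) : ℂ) - κ)) (by
        intro j
        have h5 := h3 (iR (Pi.single j 1))
        have h6 : ∀ (σ : K →+* ℂ), ev D.b σ (iR (Pi.single j 1)) = σ (D.b j) := by
          intro σ
          unfold ev
          rw [Finset.sum_eq_single j]
          · simp [iR]
          · intro k _ hk; simp [iR, hk]
          · simp
        unfold Lam at h5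
        simp only [h6, D.W_of_mem hi, Pi.one_apply, Units.val_one, mul_one] at h5
        rw [Finset.mul_sum, ← sub_eq_zero, ← Finset.sum_sub_distrib] at h5
        rw [← h5]
        refine Finset.sum_congr rfl fun σ _ => ?_
        ring)
    have h5 := congrFun h4 τ
    have h6 := congrFun h4 τ'
    simp only [Pi.zero_apply] at h5 h6
    have h7 := (mul_eq_zero.1 h5).resolve_left h1
    have h8 := (mul_eq_zero.1 h6).resolve_left h2
    exact hneC (by rw [sub_eq_zero.1 h7, sub_eq_zero.1 h8])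
  obtain ⟨x, hx1, hx2⟩ := exists_pos_neg (D.fr i 1) (D.fr i (expM (t₀ • η))) hf hg
  have hopen : IsOpen {x : Fin d → ℝ | 0 < D.fr i 1 x ∧ D.fr i (expM (t₀ • η)) x < 0} := by
    have c1 : Continuous (D.fr i 1) := LinearMap.continuous_of_finiteDimensional _
    have c2 : Continuous (D.fr i (expM (t₀ • η))) := LinearMap.continuous_of_finiteDimensional _
    exact (isOpen_lt continuous_const c1).inter (isOpen_lt c2 continuous_const)
  obtain ⟨m, k, hk, hm1, hm2⟩ := exists_int_point _ hopen x ⟨hx1, hx2⟩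
  have hkr : (0 : ℝ) < k := by exact_mod_cast hk
  have hsc : (fun j => (m j : ℝ) / k) = (1 / (k : ℝ)) • iR m := by
    funext j
    simp only [iR, Pi.smul_apply, smul_eq_mul]
    ring
  rw [hsc, map_smul, smul_eq_mul] at hm1 hm2
  have hm1' : 0 < D.fr i 1 (iR m) := by
    have := mul_pos hkr hm1
    rwa [← mul_assoc, mul_one_div, div_self hkr.ne', one_mul] at this
  have hm2' : D.fr i (expM (t₀ • η)) (iR m) < 0 := by
    have := mul_neg_of_pos_of_neg hkr hm2
    rwa [← mul_assoc, mul_one_div, div_self hkr.ne', one_mul] at this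
  have hm0 : m ≠ 0 := by
    rintro rfl
    have : iR (0 : Fin d → ℤ) = 0 := by funext j; simp [iR]
    rw [this, map_zero] at hm1'
    exact lt_irrefl _ hm1'
  -- intermediate value
  have hcont : Continuous fun s : ℝ => D.fr i (expM (s • η)) (iR m) := by
    simp only [fr_apply]
    refine Complex.continuous_re.comp ((D.continuous_Lam i (iR m)).comp ?_)
    exact continuous_expM.comp (continuous_id.smul continuous_const)
  obtain ⟨s, hs⟩ : (0 : ℝ) ∈ Set.range fun s : ℝ => D.fr i (expM (s • η)) (iR m) := by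
    refine mem_range_of_exists_le_of_exists_ge hcont ⟨t₀, hm2'.le⟩ ⟨0, ?_⟩
    rw [zero_smul, expM_zero]
    exact hm1'.le
  have hz : D.Lam i (expM (s • η)) (iR m) = 0 := by
    rw [hLf _ (hmem s)]
    simp only at hs
    rw [hs, Complex.ofReal_zero]
  have hlow := D.lower (by omega) (expM (s • η)) (hmem s) m hm0
  rw [Finset.prod_eq_zero (Finset.mem_univ i) (by rw [hz, norm_zero])] at hlow
  exact absurd D.hν (not_lt.2 hlow)

/-- a row in `I` has, up to a factor, coefficients in a real field of degree at most `d` -/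
theorem alg_row (hd : 2 ≤ d) (i : Fin d) (hi : i ∈ D.I) :
    ∃ (s : ℝ) (F : IntermediateField ℚ ℝ) (_ : FiniteDimensional ℚ F), s ≠ 0 ∧
      Module.finrank ℚ F ≤ d ∧ ∀ j, s * D.h i j ∈ F := by
  classical
  have hrow : ∃ j, D.h i j ≠ 0 := by
    by_contra hcon
    push Not at hcon
    exact D.hdet (Matrix.det_eq_zero_of_row_eq_zero i hcon)
  obtain ⟨j₀, hj₀⟩ := hrow
  obtain ⟨τ, hτ⟩ : ∃ τ, D.H i τ ≠ 0 := by
    by_contra hcon
    push Not at hcon
    apply hj₀
    have h1 := D.hH i j₀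
    rw [Finset.sum_eq_zero (fun τ _ => by rw [hcon τ, zero_mul])] at h1
    exact_mod_cast h1
  have hone : ∀ j, (D.h i j : ℂ) = D.H i τ * τ (D.b j) := by
    intro j
    rw [D.hH i j, Finset.sum_eq_single τ]
    · intro σ _ hσ
      rcases D.single hd i hi σ τ hσ with h | h
      · rw [h, zero_mul]
      · exact absurd h hτ
    · simp
  obtain ⟨Φ, hΦ⟩ : ∃ Φ : K →ₐ[ℚ] ℂ, Φ = τ.toRatAlgHom := ⟨_, rfl⟩
  obtain ⟨ι, hι⟩ : ∃ ι : ℝ →ₐ[ℚ] ℂ, ι = Complex.ofRealHom.toRatAlgHom := ⟨_, rfl⟩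
  have hιv : ∀ x : ℝ, ι x = (x : ℂ) := by intro x; rw [hι]; rfl
  have hΦv : ∀ x : K, Φ x = τ x := by intro x; rw [hΦ]; rfl
  let F : IntermediateField ℚ ℝ := Φ.fieldRange.comap ι
  have hmemF : ∀ x : ℝ, x ∈ F ↔ ∃ z : K, τ z = (x : ℂ) := by
    intro x
    have h1 : x ∈ F ↔ ι x ∈ Φ.fieldRange := Iff.rfl
    rw [h1, AlgHom.mem_fieldRange]
    simp only [hΦv, hιv]
  have hch : ∀ x : F, ∃ z : K, τ z = ((x : ℝ) : ℂ) := fun x => (hmemF x).1 x.2
  choose f hf using hch
  let T : F →ₗ[ℚ] K :=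
    { toFun := f
      map_add' := by
        intro x y
        apply τ.injective
        rw [map_add, hf, hf, hf]
        push_cast
        rfl
      map_smul' := by
        intro a x
        apply τ.injective
        have h0 : a • f x = algebraMap ℚ K a * f x := Algebra.smul_def _ _
        rw [RingHom.id_apply, h0, map_mul, hf, hf]
        have h1 : τ (algebraMap ℚ K a) = (a : ℂ) := by simp
        rw [h1]
        have h2 : ((a • x : F) : ℝ) = (a : ℝ) * (x : ℝ) := by
          rw [IntermediateField.coe_smul, Rat.smul_def]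
        rw [h2]
        push_cast
        rfl }
  have hTinj : Function.Injective T := by
    intro x y hxy
    have h1 : τ (f x) = τ (f y) := congrArg τ hxy
    rw [hf, hf] at h1
    exact Subtype.ext (Complex.ofReal_injective h1)
  have hfin : FiniteDimensional ℚ F := FiniteDimensional.of_injective T hTinj
  refine ⟨(D.h i j₀)⁻¹, F, hfin, inv_ne_zero hj₀, ?_, ?_⟩
  · have h1 := LinearMap.finrank_le_finrank_of_injective hTinj
    rwa [Module.finrank_eq_card_basis D.b, Fintype.card_fin] at h1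
  · intro j
    rw [hmemF]
    refine ⟨(D.b j₀)⁻¹ * D.b j, ?_⟩
    have hb : D.b j₀ ≠ 0 := D.b.ne_zero j₀
    have hτb : τ (D.b j₀) ≠ 0 := (map_ne_zero τ).2 hb
    rw [map_mul, map_inv₀]
    push_cast
    rw [hone j₀, hone j]
    field_simp

end Blk

/-- Conclusion: the form `g` is proportional to a form with integer coefficients. -/
theorem propInt_of_blk (hd : 3 ≤ d) (D : Blk K d) (hne : D.I.Nonempty)
    (g : Matrix (Fin d) (Fin d) ℝ) (hg : g.det ≠ 0) (hh : D.h ∈ closure (Orb g))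
    (ν : ℝ) (hν : 0 < ν) (hnu : HasNu g ν) : PropInt g := by
  obtain ⟨i, hi⟩ := hne
  obtain ⟨s, F, hF, hs, hfr, hmem⟩ := D.alg_row (by omega) i hi
  rcases limit_alg hd hg hh i s hs F hfr hmem with ⟨x, hx, hx0⟩ | h | h
  · exfalso
    have h1 := D.hnu x hx
    rw [FF, Finset.prod_eq_zero (Finset.mem_univ i) hx0, abs_zero] at h1
    exact absurd D.hν (not_lt.2 h1)
  · exact h
  · exfalso
    obtain ⟨x, hx, hx2⟩ := dense_ne (by omega : 0 < d) h 0 ν hν
    rw [sub_zero] at hx2
    exact absurd (hnu x hx) (not_le.2 hx2)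

end Pool.Agent.K3h4.OC
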