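import Mathlib
import Pool.Agent.K3h4.OC.Stage

/-! # From a rational matrix with irreducible characteristic polynomial to the data -/

open NumberField Filter Topology H715R2 Matrix

namespace Pool.Agent.K3h4.OC

variable {d : ℕ}

theorem core_field {K : Type} [Field K] [NumberField K] (A : Matrix (Fin d) (Fin d) ℚ) (lam : K)
    (hroot : Polynomial.aeval lam A.charpoly = 0)
    (hgen : ∀ z : K, ∃ Q : Polynomial ℚ, Polynomial.aeval lam Q = z)
    (hfr : Module.finrank ℚ K = d) :
    ∃ b : Module.Basis (Fin d) ℚ K, (∀ k, ∑ j, (A j k) • b j = lam * b k) ∧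
      Function.Injective (fun τ : K →+* ℂ => τ lam) := by
  classical
  -- left eigenvector
  have hdet : (Matrix.scalar (Fin d) lam - A.map (algebraMap ℚ K)).det = 0 := by
    rw [← Matrix.eval_charpoly, Matrix.charpoly_map, Polynomial.eval_map_algebraMap]
    exact hroot
  obtain ⟨w, hw0, hw⟩ := Matrix.exists_vecMul_eq_zero_iff.2 hdet
  have hwk : ∀ k, ∑ j, (A j k) • w j = lam * w k := by
    intro k
    have h1 := congrFun hw k
    rw [Matrix.vecMul_sub, Pi.sub_apply, Pi.zero_apply, sub_eq_zero] at h1
    have h2 : (w ᵥ* Matrix.scalar (Fin d) lam) k = lam * w k := by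
      simp [Matrix.vecMul, dotProduct, Matrix.scalar_apply, Matrix.diagonal_apply, mul_comm]
    rw [h2] at h1
    rw [h1, Matrix.vecMul, dotProduct]
    refine Finset.sum_congr rfl fun j _ => ?_
    rw [Algebra.smul_def, Matrix.map_apply, mul_comm]
  -- the linear map
  obtain ⟨f, hf⟩ : ∃ f : (Fin d → ℚ) →ₗ[ℚ] K, ∀ q, f q = ∑ j, q j • w j :=
    ⟨{ toFun := fun q => ∑ j, q j • w j
       map_add' := by
         intro x y
         simp [add_smul, Finset.sum_add_distrib]
       map_smul' := by
         intro a x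
         simp [mul_smul, Finset.smul_sum] }, fun q => rfl⟩
  have hfA : ∀ q, f (A *ᵥ q) = lam * f q := by
    intro q
    rw [hf, hf, Finset.mul_sum]
    have h1 : ∀ j, (A *ᵥ q) j • w j = ∑ k, (A j k * q k) • w j := by
      intro j
      rw [Matrix.mulVec, dotProduct, Finset.sum_smul]
    rw [Finset.sum_congr rfl fun j _ => h1 j, Finset.sum_comm]
    refine Finset.sum_congr rfl fun k _ => ?_
    have h2 : lam * q k • w k = q k • (lam * w k) := by
      rw [mul_smul_comm]
    rw [h2, ← hwk k, Finset.smul_sum]
    refine Finset.sum_congr rfl fun j _ => ?_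
    rw [smul_smul, mul_comm]
  have hstab : ∀ (Q : Polynomial ℚ) (q : Fin d → ℚ), ∃ q', f q' = Polynomial.aeval lam Q * f q := by
    intro Q
    induction Q using Polynomial.induction_on with
    | C a =>
      intro q
      refine ⟨a • q, ?_⟩
      rw [map_smul, Polynomial.aeval_C, Algebra.smul_def]
    | add Q R hQ hR =>
      intro q
      obtain ⟨x, hx⟩ := hQ q
      obtain ⟨y, hy⟩ := hR q
      exact ⟨x + y, by rw [map_add, hx, hy, map_add, add_mul]⟩
    | monomial n a ih =>
      intro q
      obtain ⟨x, hx⟩ := ih q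
      refine ⟨A *ᵥ x, ?_⟩
      have h1 : Polynomial.aeval lam (Polynomial.C a * Polynomial.X ^ (n + 1)) =
          lam * Polynomial.aeval lam (Polynomial.C a * Polynomial.X ^ n) := by
        have h2 : (Polynomial.C a * Polynomial.X ^ (n + 1) : Polynomial ℚ) =
            Polynomial.X * (Polynomial.C a * Polynomial.X ^ n) := by ring
        rw [h2, map_mul, Polynomial.aeval_X]
      rw [hfA, hx, h1]
      ring
  have hsurj : Function.Surjective f := by
    intro z
    obtain ⟨k, hk⟩ : ∃ k, w k ≠ 0 := by
      by_contra hcon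
      push Not at hcon
      exact hw0 (funext hcon)
    have hek : f (Pi.single k 1) = w k := by
      rw [hf, Finset.sum_eq_single k]
      · simp
      · intro j _ hj; simp [hj]
      · simp
    obtain ⟨Q, hQ⟩ := hgen (z * (w k)⁻¹)
    obtain ⟨q', hq'⟩ := hstab Q (Pi.single k 1)
    refine ⟨q', ?_⟩
    rw [hq', hek, hQ, mul_assoc, inv_mul_cancel₀ hk, mul_one]
  have hinj : Function.Injective f :=
    (LinearMap.injective_iff_surjective_of_finrank_eq_finrank
      (by rw [hfr, Module.finrank_fintype_fun_eq_card, Fintype.card_fin])).2 hsurj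
  obtain ⟨E, hE⟩ : ∃ E : (Fin d → ℚ) ≃ₗ[ℚ] K, ∀ q, E q = f q :=
    ⟨LinearEquiv.ofBijective f ⟨hinj, hsurj⟩, fun q => rfl⟩
  have hb : ∀ j, ((Pi.basisFun ℚ (Fin d)).map E) j = w j := by
    intro j
    rw [Module.Basis.map_apply, hE, hf, Finset.sum_eq_single j]
    · simp
    · intro k _ hk; simp [hk]
    · simp
  refine ⟨(Pi.basisFun ℚ (Fin d)).map E, ?_, ?_⟩
  · intro k
    rw [hb, ← hwk k]
    exact Finset.sum_congr rfl fun j _ => by rw [hb]
  · intro τ τ' h
    simp only at h
    ext z
    obtain ⟨Q, rfl⟩ := hgen z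
    have h1 : ∀ σ : K →+* ℂ, σ (Polynomial.aeval lam Q) =
        Q.eval₂ (algebraMap ℚ ℂ) (σ lam) := by
      intro σ
      rw [Polynomial.aeval_def, Polynomial.hom_eval₂]
      congr 1
      exact RingHom.ext_rat _ _
    rw [h1, h1, h]

/-- A rational matrix with irreducible characteristic polynomial is the multiplication by an
element of a number field of degree `d` in some basis. -/
theorem exists_field (A : Matrix (Fin d) (Fin d) ℚ) (hA : Irreducible A.charpoly) :
    ∃ (K : Type) (_ : Field K) (_ : NumberField K) (b : Module.Basis (Fin d) ℚ K) (lam : K),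
      (∀ k, ∑ j, (A j k) • b j = lam * b k) ∧
      Function.Injective (fun τ : K →+* ℂ => τ lam) := by
  classical
  have hdeg : A.charpoly.natDegree = d := by
    rw [Matrix.charpoly_natDegree_eq_dim, Fintype.card_fin]
  have hmon := A.charpoly_monic
  obtain ⟨α, hα⟩ : ∃ α : ℂ, Polynomial.aeval α A.charpoly = 0 := by
    have h1 : (A.charpoly.map (algebraMap ℚ ℂ)).degree ≠ 0 := by
      rw [Polynomial.degree_map]
      exact (Polynomial.natDegree_pos_iff_degree_pos.1 hA.natDegree_pos).ne'
    obtain ⟨α, hα⟩ := IsAlgClosed.exists_root _ h1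
    refine ⟨α, ?_⟩
    rw [Polynomial.IsRoot, Polynomial.eval_map_algebraMap] at hα
    exact hα
  have hint : IsIntegral ℚ α := ⟨A.charpoly, hmon, hα⟩
  have hmin : minpoly ℚ α = A.charpoly := (minpoly.eq_of_irreducible_of_monic hA hα hmon).symm
  have hfd : FiniteDimensional ℚ (IntermediateField.adjoin ℚ {α}) :=
    IntermediateField.adjoin.finiteDimensional hint
  have hNF : NumberField (IntermediateField.adjoin ℚ {α}) :=
    { to_charZero := inferInstance, to_finiteDimensional := inferInstance }
  have hfr : Module.finrank ℚ (IntermediateField.adjoin ℚ {α}) = d := by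
    rw [IntermediateField.adjoin.finrank hint, hmin, hdeg]
  obtain ⟨b, hb⟩ := core_field A (IntermediateField.AdjoinSimple.gen ℚ α) (by
      apply Subtype.val_injective
      have h1 := Polynomial.aeval_algHom_apply (IntermediateField.adjoin ℚ {α}).val
        (IntermediateField.AdjoinSimple.gen ℚ α) A.charpoly
      have h2 : (IntermediateField.adjoin ℚ {α}).val (IntermediateField.AdjoinSimple.gen ℚ α) = α :=
        rfl
      rw [h2, hα] at h1
      exact h1.symm) (by
      intro z
      have h1 := IntermediateField.adjoin_simple_toSubalgebra_of_isAlgebraic hint.isAlgebraic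
      have h2 : (z : ℂ) ∈ Algebra.adjoin ℚ {α} := by
        rw [← h1]; exact z.2
      rw [Algebra.adjoin_singleton_eq_range_aeval] at h2
      obtain ⟨Q, hQ⟩ := h2
      refine ⟨Q, ?_⟩
      apply Subtype.val_injective
      have h3 := Polynomial.aeval_algHom_apply (IntermediateField.adjoin ℚ {α}).val
        (IntermediateField.AdjoinSimple.gen ℚ α) Q
      have h4 : (IntermediateField.adjoin ℚ {α}).val (IntermediateField.AdjoinSimple.gen ℚ α) = α :=
        rfl
      rw [h4] at h3
      exact h3.symm.trans hQ) hfr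
  exact ⟨IntermediateField.adjoin ℚ {α}, inferInstance, hNF, b, _, hb⟩

/-- reality of the coefficients with respect to the embeddings -/
lemma H_conj_gen {K : Type*} [Field K] [NumberField K] (b : Module.Basis (Fin d) ℚ K)
    (g : Fin d → ℝ) (H : (K →+* ℂ) → ℂ) (hH : ∀ j, (g j : ℂ) = ∑ τ : K →+* ℂ, H τ * τ (b j))
    (τ : K →+* ℂ) : H (ComplexEmbedding.conjugate τ) = (starRingEnd ℂ) (H τ) := by
  have h := embed_indep b
    (fun τ => H τ - (starRingEnd ℂ) (H (ComplexEmbedding.conjugate τ))) ?_
  · have h1 := congrFun h (ComplexEmbedding.conjugate τ)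
    have h2 : ComplexEmbedding.conjugate (ComplexEmbedding.conjugate τ) = τ := star_involutive τ
    simp only [h2, Pi.zero_apply] at h1
    exact sub_eq_zero.1 h1
  · intro j
    simp only [sub_mul, Finset.sum_sub_distrib]
    rw [← hH j]
    have h3 : ∑ τ : K →+* ℂ, (starRingEnd ℂ) (H (ComplexEmbedding.conjugate τ)) * τ (b j)
        = ∑ τ : K →+* ℂ, (starRingEnd ℂ) (H τ) *
            (ComplexEmbedding.conjugate τ) (b j) := by
      refine Fintype.sum_equiv (Function.Involutive.toPerm _ (star_involutive (R := K →+* ℂ)))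
        _ _ fun τ => ?_
      have h2 : ComplexEmbedding.conjugate (ComplexEmbedding.conjugate τ) = τ := star_involutive τ
      show _ = (starRingEnd ℂ) (H (ComplexEmbedding.conjugate τ)) *
        (ComplexEmbedding.conjugate (ComplexEmbedding.conjugate τ)) (b j)
      rw [h2]
    rw [h3]
    have h4 : ∀ τ : K →+* ℂ, (starRingEnd ℂ) (H τ) * (ComplexEmbedding.conjugate τ) (b j)
        = (starRingEnd ℂ) (H τ * τ (b j)) := by
      intro τ
      rw [map_mul]
      rfl
    rw [Finset.sum_congr rfl fun τ _ => h4 τ, ← map_sum, ← hH j, Complex.conj_ofReal, sub_self]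

/-- Invariance of the common kernel gives relations between the rows. -/
lemma rows_invariant {h B : Matrix (Fin d) (Fin d) ℝ} (hdet : h.det ≠ 0) (I : Finset (Fin d))
    (hinv : ∀ x : Fin d → ℝ, (∀ i ∈ I, (h *ᵥ x) i = 0) → ∀ i ∈ I, (h *ᵥ (B *ᵥ x)) i = 0) :
    ∃ c : Fin d → Fin d → ℝ, ∀ i ∈ I, ∀ k, (h * B) i k = ∑ i' ∈ I, c i i' * h i' k := by
  classical
  refine ⟨fun i i' => ((h * B) * h⁻¹) i i', fun i hi k => ?_⟩
  have h1 : h * B = ((h * B) * h⁻¹) * h := by
    rw [Matrix.mul_assoc, Matrix.nonsing_inv_mul _ (isUnit_iff_ne_zero.2 hdet), Matrix.mul_one]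
  have h2 : ∀ i' ∉ I, ((h * B) * h⁻¹) i i' = 0 := by
    intro i' hi'
    have h3 := hinv (h⁻¹ *ᵥ Pi.single i' 1) (by
      intro l hl
      rw [mulVec_mulVec, Matrix.mul_nonsing_inv _ (isUnit_iff_ne_zero.2 hdet), one_mulVec,
        Pi.single_eq_of_ne]
      rintro rfl
      exact hi' hl) i hi
    rw [mulVec_mulVec, mulVec_mulVec, Matrix.mulVec_single_one] at h3
    exact h3
  conv_lhs => rw [h1]
  rw [Matrix.mul_apply]
  symm
  refine Finset.sum_subset (Finset.subset_univ I) fun i' _ hi' => ?_
  show ((h * B) * h⁻¹) i i' * h i' k = 0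
  rw [h2 i' hi', zero_mul]

/-- The rational matrix `B` preserves the common kernel of the rows of `h` in `I`. -/
def Pres (h : Matrix (Fin d) (Fin d) ℝ) (I : Finset (Fin d)) (B : Matrix (Fin d) (Fin d) ℚ) :
    Prop :=
  ∀ x : Fin d → ℝ, (∀ i ∈ I, (h *ᵥ x) i = 0) →
    ∀ i ∈ I, (h *ᵥ ((B.map (Rat.cast : ℚ → ℝ)) *ᵥ x)) i = 0

theorem exists_blk (hd : 0 < d) (A : Matrix (Fin d) (Fin d) ℚ) (hA : Irreducible A.charpoly)
    (h : Matrix (Fin d) (Fin d) ℝ) (hdet : h.det ≠ 0) (ν : ℝ) (hν : 0 < ν) (hnu : HasNu h ν)
    (I : Finset (Fin d)) (hinv : Pres h I A)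
    (hcond : Nat.Coprime I.card d ∨
      ∀ B C : Matrix (Fin d) (Fin d) ℚ, Pres h I B → Pres h I C → B * C = C * B) :
    ∃ (K : Type) (_ : Field K) (_ : NumberField K) (D : Blk K d), D.h = h ∧ D.I = I := by
  classical
  obtain ⟨K, _, _, b, lam, hlam, hinj⟩ := exists_field A hA
  obtain ⟨N, hN, -, act⟩ := exists_pow_act (K := K) b
  choose H hH using fun i => embed_surj b (fun j => (h i j : ℂ))
  obtain ⟨c, hc⟩ := rows_invariant hdet I hinv
  -- the eigenvalue equations for the rows of embeddings
  have hev : ∀ (τ : K →+* ℂ) k, ∑ j, (A j k : ℂ) * τ (b j) = τ lam * τ (b k) := by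
    intro τ k
    rw [← map_mul, ← hlam k, map_sum]
    refine Finset.sum_congr rfl fun j _ => ?_
    rw [Algebra.smul_def, map_mul]
    simp
  have hrel : ∀ i ∈ I, ∀ τ, H i τ * τ lam = ∑ i' ∈ I, (c i i' : ℂ) * H i' τ := by
    intro i hi τ
    have h1 := embed_indep b
      (fun τ => H i τ * τ lam - ∑ i' ∈ I, (c i i' : ℂ) * H i' τ) (by
        intro k
        have h2 := hc i hi k
        have h3 : (((h * A.map (Rat.cast : ℚ → ℝ)) i k : ℝ) : ℂ) =
            ∑ τ : K →+* ℂ, H i τ * τ lam * τ (b k) := by
          rw [Matrix.mul_apply]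
          push_cast
          simp only [Matrix.map_apply, hH i, Finset.sum_mul]
          rw [Finset.sum_comm]
          refine Finset.sum_congr rfl fun σ _ => ?_
          rw [mul_assoc, ← hev σ k, Finset.mul_sum]
          refine Finset.sum_congr rfl fun j _ => ?_
          push_cast
          ring
        have h4 : ((∑ i' ∈ I, c i i' * h i' k : ℝ) : ℂ) =
            ∑ τ : K →+* ℂ, (∑ i' ∈ I, (c i i' : ℂ) * H i' τ) * τ (b k) := by
          push_cast
          simp only [hH, Finset.mul_sum, Finset.sum_mul]
          rw [Finset.sum_comm]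
          refine Finset.sum_congr rfl fun σ _ => Finset.sum_congr rfl fun i' _ => ?_
          ring
        simp only [sub_mul, Finset.sum_sub_distrib]
        rw [← h3, ← h4, h2, sub_self])
    have h5 := congrFun h1 τ
    exact sub_eq_zero.1 h5
  obtain ⟨J, hJ⟩ : ∃ J : Finset (K →+* ℂ), ∀ τ, τ ∈ J ↔ ∃ i ∈ I, H i τ ≠ 0 :=
    ⟨Finset.univ.filter fun τ => ∃ i ∈ I, H i τ ≠ 0, fun τ => by simp⟩
  have hIJ : ∀ i ∈ I, ∀ τ, τ ∉ J → H i τ = 0 := by
    intro i hi τ hτ
    by_contra hne
    exact hτ ((hJ τ).2 ⟨i, hi, hne⟩)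
  -- the span of the rows in `I`
  obtain ⟨S, hS⟩ : ∃ S : Submodule ℂ ((K →+* ℂ) → ℂ),
      S = Submodule.span ℂ ((I.image H : Finset ((K →+* ℂ) → ℂ)) : Set ((K →+* ℂ) → ℂ)) := ⟨_, rfl⟩
  have hHS : ∀ i ∈ I, H i ∈ S := by
    intro i hi
    rw [hS]
    exact Submodule.subset_span (by
      rw [Finset.coe_image]
      exact ⟨i, hi, rfl⟩)
  have hdiag : ∀ v ∈ S, (fun τ => τ lam * v τ) ∈ S := by
    intro v hv
    let T : ((K →+* ℂ) → ℂ) →ₗ[ℂ] ((K →+* ℂ) → ℂ) :=
      { toFun := fun v τ => τ lam * v τ
        map_add' := by intro x y; funext τ; simp [mul_add]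
        map_smul' := by intro a x; funext τ; simp; ring }
    have h1 : S ≤ S.comap T := by
      conv_lhs => rw [hS]
      rw [Submodule.span_le]
      intro v hv
      rw [Finset.coe_image] at hv
      obtain ⟨i, hi, rfl⟩ := hv
      show T (H i) ∈ S
      have h2 : T (H i) = ∑ i' ∈ I, (c i i' : ℂ) • H i' := by
        funext τ
        show τ lam * H i τ = _
        rw [mul_comm, hrel i hi τ, Finset.sum_apply]
        rfl
      rw [h2]
      exact S.sum_mem fun i' hi' => S.smul_mem _ (hHS i' hi')
    exact h1 hv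
  have hpoly : ∀ (Q : Polynomial ℂ), ∀ v ∈ S, (fun τ => Q.eval (τ lam) * v τ) ∈ S := by
    intro Q
    induction Q using Polynomial.induction_on with
    | C a =>
      intro v hv
      have : (fun τ : K →+* ℂ => (Polynomial.C a).eval (τ lam) * v τ) = a • v := by
        funext τ; simp
      rw [this]
      exact S.smul_mem a hv
    | add Q R hQ hR =>
      intro v hv
      have : (fun τ : K →+* ℂ => (Q + R).eval (τ lam) * v τ) =
          (fun τ => Q.eval (τ lam) * v τ) + (fun τ => R.eval (τ lam) * v τ) := by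
        funext τ; simp [add_mul]
      rw [this]
      exact S.add_mem (hQ v hv) (hR v hv)
    | monomial n a ih =>
      intro v hv
      have h1 := hdiag _ (ih v hv)
      have : (fun τ : K →+* ℂ => (Polynomial.C a * Polynomial.X ^ (n + 1)).eval (τ lam) * v τ) =
          (fun τ => τ lam * ((Polynomial.C a * Polynomial.X ^ n).eval (τ lam) * v τ)) := by
        funext τ
        simp only [Polynomial.eval_mul, Polynomial.eval_C, Polynomial.eval_pow,
          Polynomial.eval_X, pow_succ]
        ring
      rw [this]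
      exact h1
  have hsingle : ∀ τ₀ ∈ J, (Pi.single τ₀ (1 : ℂ) : (K →+* ℂ) → ℂ) ∈ S := by
    intro τ₀ hτ₀
    obtain ⟨i, hi, hne⟩ := (hJ τ₀).1 hτ₀
    obtain ⟨Q, hQ⟩ : ∃ Q : Polynomial ℂ, Q =
        ∏ τ ∈ Finset.univ.erase τ₀, (Polynomial.X - Polynomial.C (τ lam)) := ⟨_, rfl⟩
    have h1 := hpoly Q (H i) (hHS i hi)
    have hQ0 : Q.eval (τ₀ lam) ≠ 0 := by
      rw [hQ, Polynomial.eval_prod]
      refine Finset.prod_ne_zero_iff.2 fun τ hτ => ?_
      rw [Polynomial.eval_sub, Polynomial.eval_X, Polynomial.eval_C, sub_ne_zero]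
      intro heq
      exact (Finset.mem_erase.1 hτ).1 (hinj heq.symm)
    have h2 : (fun τ : K →+* ℂ => Q.eval (τ lam) * H i τ) =
        (Q.eval (τ₀ lam) * H i τ₀) • (Pi.single τ₀ (1 : ℂ) : (K →+* ℂ) → ℂ) := by
      funext τ
      by_cases hτ : τ = τ₀
      · rw [hτ]; simp
      · rw [Pi.smul_apply, Pi.single_eq_of_ne hτ, smul_zero]
        have : Q.eval (τ lam) = 0 := by
          rw [hQ, Polynomial.eval_prod]
          refine Finset.prod_eq_zero (Finset.mem_erase.2 ⟨hτ, Finset.mem_univ τ⟩) ?_
          simp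
        rw [this, zero_mul]
    rw [h2] at h1
    have h3 := S.smul_mem (Q.eval (τ₀ lam) * H i τ₀)⁻¹ h1
    rwa [smul_smul, inv_mul_cancel₀ (mul_ne_zero hQ0 hne), one_smul] at h3
  have hle1 : J.card ≤ I.card := by
    have h1 : LinearIndependent ℂ (fun τ : J => (⟨Pi.single τ.1 1, hsingle τ.1 τ.2⟩ : S)) := by
      have h2 : LinearIndependent ℂ (fun τ : J => (Pi.single τ.1 1 : (K →+* ℂ) → ℂ)) := by
        have h3 := (Pi.basisFun ℂ (K →+* ℂ)).linearIndependent
        have h4 := h3.comp (fun τ : J => τ.1) Subtype.val_injective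
        have h5 : (fun τ : J => (Pi.single τ.1 1 : (K →+* ℂ) → ℂ)) =
            (Pi.basisFun ℂ (K →+* ℂ)) ∘ (fun τ : J => τ.1) := by
          funext τ
          simp [Pi.basisFun_apply]
        rw [h5]
        exact h4
      exact LinearIndependent.of_comp S.subtype h2
    have h5 := h1.fintype_card_le_finrank
    rw [Fintype.card_coe] at h5
    have h6 : Module.finrank ℂ S ≤ (I.image H).card := by
      rw [hS]
      exact finrank_span_finset_le_card _
    exact h5.trans (h6.trans Finset.card_image_le)
  have hle2 : I.card ≤ J.card := by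
    have h1 : LinearIndependent ℂ (fun i : I => (fun τ : J => H i.1 τ.1)) := by
      rw [Fintype.linearIndependent_iff]
      intro a ha
      -- complex combination of the rows of `h`
      have h2 : ∀ τ, ∑ i : I, a i * H i.1 τ = 0 := by
        intro τ
        by_cases hτ : τ ∈ J
        · have h3 := congrFun ha ⟨τ, hτ⟩
          simpa [Finset.sum_apply] using h3
        · exact Finset.sum_eq_zero fun i _ => by rw [hIJ i.1 i.2 τ hτ, mul_zero]
      have h3 : ∀ j, ∑ i : I, a i * (h i.1 j : ℂ) = 0 := by
        intro j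
        simp only [hH, Finset.mul_sum]
        rw [Finset.sum_comm]
        refine Finset.sum_eq_zero fun τ _ => ?_
        have : ∀ i : I, a i * (H i.1 τ * τ (b j)) = (a i * H i.1 τ) * τ (b j) := fun i => by ring
        rw [Finset.sum_congr rfl fun i _ => this i, ← Finset.sum_mul, h2 τ, zero_mul]
      have hdetC : (h.map (Complex.ofRealHom : ℝ → ℂ)).det ≠ 0 := by
        have h4 := (Complex.ofRealHom).map_det h
        rw [RingHom.mapMatrix_apply] at h4
        rw [← h4]
        intro h0
        exact hdet (Complex.ofReal_eq_zero.1 h0)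
      have h5 : (fun i : Fin d => if hi : i ∈ I then a ⟨i, hi⟩ else 0) ᵥ*
          (h.map (Complex.ofRealHom : ℝ → ℂ)) = 0 := by
        funext j
        rw [Matrix.vecMul, dotProduct, Pi.zero_apply]
        refine Eq.trans ?_ (h3 j)
        rw [← Finset.sum_subset (Finset.subset_univ I)]
        · rw [← Finset.sum_coe_sort I]
          refine Finset.sum_congr rfl fun i _ => ?_
          rw [dif_pos i.2]
          rfl
        · intro i _ hi
          rw [dif_neg hi, zero_mul]
      have h6 := Matrix.eq_zero_of_vecMul_eq_zero hdetC h5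
      intro i
      have h7 := congrFun h6 i.1
      simp only [Pi.zero_apply] at h7
      rwa [dif_pos i.2] at h7
    have h8 := h1.fintype_card_le_finrank
    rw [Fintype.card_coe, Module.finrank_fintype_fun_eq_card, Fintype.card_coe] at h8
    exact h8
  have hlin : ∀ (i : Fin d) (x : Fin d → ℝ),
      ((∑ j, h i j * x j : ℝ) : ℂ) = ∑ τ : K →+* ℂ, H i τ * ev b τ x := by
    intro i x
    push_cast
    simp only [hH, ev, Finset.sum_mul, Finset.mul_sum]
    rw [Finset.sum_comm]
    refine Finset.sum_congr rfl fun τ _ => Finset.sum_congr rfl fun j _ => ?_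
    ring
  refine ⟨K, inferInstance, inferInstance,
    { b := b, N := N, hN := hN, act := act, h := h, hdet := hdet, H := H, hH := hH, ν := ν,
      hν := hν, hnu := hnu, I := I, J := J, hIJ := hIJ, hcard := le_antisymm hle1 hle2,
      hJc := ?_, hF := ?_ }, rfl, rfl⟩
  · intro τ hτ
    obtain ⟨i, hi, hne⟩ := (hJ τ).1 hτ
    refine (hJ _).2 ⟨i, hi, ?_⟩
    rw [H_conj_gen b (fun j => h i j) (H i) (hH i)]
    exact (map_ne_zero _).2 hne
  · intro F hFJ
    rcases hcond with hco | hcomm
    · refine top_of_coprime J ?_ F hFJ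
      rw [Module.finrank_eq_card_basis b, Fintype.card_fin, le_antisymm hle1 hle2]
      exact hco
    · -- the trace to `F` preserves the common kernel
      obtain ⟨B, hB⟩ : ∃ B : Matrix (Fin d) (Fin d) ℚ, ∀ k,
          ∑ j, (B j k) • b j = algebraMap F K (Algebra.trace F K (b k)) := by
        refine ⟨fun j k => b.repr (algebraMap F K (Algebra.trace F K (b k))) j, fun k => ?_⟩
        exact b.sum_repr _
      have hevB : ∀ (τ : K →+* ℂ) (x : Fin d → ℝ),
          ev b τ ((B.map (Rat.cast : ℚ → ℝ)) *ᵥ x) =
          ∑ ψ ∈ Finset.univ.filter (fun ψ : K →+* ℂ =>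
            ψ.comp (algebraMap F K) = τ.comp (algebraMap F K)), ev b ψ x := by
        intro τ x
        have h1 : ∀ k, ∑ j, (B j k : ℂ) * τ (b j) =
            ∑ ψ ∈ Finset.univ.filter (fun ψ : K →+* ℂ =>
              ψ.comp (algebraMap F K) = τ.comp (algebraMap F K)), ψ (b k) := by
          intro k
          rw [← trace_embed F τ (b k), ← hB k, map_sum]
          refine Finset.sum_congr rfl fun j _ => ?_
          rw [Algebra.smul_def, map_mul]
          simp
        have h2 : ev b τ ((B.map (Rat.cast : ℚ → ℝ)) *ᵥ x) =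
            ∑ k, (x k : ℂ) * ∑ j, (B j k : ℂ) * τ (b j) := by
          unfold ev
          simp only [Matrix.mulVec, dotProduct, Matrix.map_apply]
          push_cast
          simp only [Finset.sum_mul, Finset.mul_sum]
          rw [Finset.sum_comm]
          refine Finset.sum_congr rfl fun k _ => Finset.sum_congr rfl fun j _ => ?_
          ring
        rw [h2]
        simp only [h1, Finset.mul_sum]
        rw [Finset.sum_comm]
        rfl
      have hkerJ : ∀ x : Fin d → ℝ, (∀ i ∈ I, (h *ᵥ x) i = 0) → ∀ τ ∈ J, ev b τ x = 0 := by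
        intro x hx τ hτ
        have h1 := hsingle τ hτ
        rw [hS] at h1
        have h2 : ∀ v ∈ Submodule.span ℂ
            ((I.image H : Finset ((K →+* ℂ) → ℂ)) : Set ((K →+* ℂ) → ℂ)),
            ∑ σ : K →+* ℂ, v σ * ev b σ x = 0 := by
          intro v hv
          induction hv using Submodule.span_induction with
          | mem v hv =>
            rw [Finset.coe_image] at hv
            obtain ⟨i, hi, rfl⟩ := hv
            rw [← hlin i x]
            have h3 := hx i hi
            rw [Matrix.mulVec, dotProduct] at h3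
            rw [h3, Complex.ofReal_zero]
          | zero => simp
          | add v w _ _ hv hw => simp [add_mul, Finset.sum_add_distrib, hv, hw]
          | smul a v _ hv =>
            have : ∀ σ : K →+* ℂ, (a • v) σ * ev b σ x = a * (v σ * ev b σ x) := by
              intro σ
              simp [mul_assoc]
            rw [Finset.sum_congr rfl fun σ _ => this σ, ← Finset.mul_sum, hv, mul_zero]
        have h3 := h2 _ h1
        rw [Finset.sum_eq_single τ] at h3
        · simpa using h3
        · intro σ _ hσ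
          rw [Pi.single_eq_of_ne hσ, zero_mul]
        · simp
      have hBpres : Pres h I B := by
        intro x hx i hi
        have h1 := hlin i ((B.map (Rat.cast : ℚ → ℝ)) *ᵥ x)
        have h2 : ∑ τ : K →+* ℂ, H i τ * ev b τ ((B.map (Rat.cast : ℚ → ℝ)) *ᵥ x) = 0 := by
          refine Finset.sum_eq_zero fun τ _ => ?_
          by_cases hτ : τ ∈ J
          · rw [hevB, Finset.sum_eq_zero, mul_zero]
            intro ψ hψ
            exact hkerJ x hx ψ (hFJ τ hτ ψ (Finset.mem_filter.1 hψ).2)
          · rw [hIJ i hi τ hτ, zero_mul]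
        rw [h2] at h1
        exact_mod_cast h1
      have hAB := hcomm A B hinv hBpres
      -- both sides applied to an element
      have hop : ∀ z : K, lam * algebraMap F K (Algebra.trace F K z) =
          algebraMap F K (Algebra.trace F K (lam * z)) := by
        have hmulA : ∀ (q : Fin d → ℚ), lam * ∑ k, q k • b k = ∑ j, (A *ᵥ q) j • b j := by
          intro q
          simp only [Matrix.mulVec, dotProduct, Finset.sum_smul, Finset.mul_sum]
          rw [Finset.sum_comm]
          refine Finset.sum_congr rfl fun k _ => ?_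
          rw [mul_smul_comm, ← hlam k, Finset.smul_sum]
          refine Finset.sum_congr rfl fun j _ => ?_
          rw [smul_smul, mul_comm]
        have hmulB : ∀ (q : Fin d → ℚ), algebraMap F K (Algebra.trace F K (∑ k, q k • b k)) =
            ∑ j, (B *ᵥ q) j • b j := by
          intro q
          simp only [Matrix.mulVec, dotProduct, Finset.sum_smul]
          rw [Finset.sum_comm, map_sum, map_sum]
          refine Finset.sum_congr rfl fun k _ => ?_
          have h1 : Algebra.trace F K (q k • b k) = q k • Algebra.trace F K (b k) := by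
            have h2 : q k • b k = (algebraMap ℚ F (q k)) • b k := by
              rw [Algebra.smul_def, Algebra.smul_def, ← IsScalarTower.algebraMap_apply]
            rw [h2, map_smul, Algebra.smul_def, Algebra.smul_def]
            rfl
          have h3 : algebraMap F K (q k • Algebra.trace F K (b k)) =
              q k • algebraMap F K (Algebra.trace F K (b k)) := by
            rw [Algebra.smul_def, Algebra.smul_def, map_mul, ← IsScalarTower.algebraMap_apply]
          rw [h1, h3, ← hB k, Finset.smul_sum]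
          refine Finset.sum_congr rfl fun j _ => ?_
          rw [smul_smul, mul_comm]
        intro z
        obtain ⟨q, hq⟩ : ∃ q : Fin d → ℚ, z = ∑ k, q k • b k := ⟨b.repr z, (b.sum_repr z).symm⟩
        rw [hq, hmulB, hmulA, hmulA, hmulB, mulVec_mulVec, mulVec_mulVec, hAB]
      have hlamF : lam ∈ F := by
        have h1 := hop 1
        have h2 : Algebra.trace F K (1 : K) = (Module.finrank F K : F) := by
          have := Algebra.trace_algebraMap (S := K) (1 : F)
          rw [map_one] at this
          rw [this]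
          simp
        rw [h2] at h1
        have h3 : ((Module.finrank F K : ℕ) : K) ≠ 0 := by
          have : 0 < Module.finrank F K := Module.finrank_pos
          exact_mod_cast this.ne'
        have h4 : lam = algebraMap F K (Algebra.trace F K (lam * 1)) * ((Module.finrank F K : ℕ) : K)⁻¹ := by
          rw [← h1, map_natCast, mul_assoc, mul_inv_cancel₀ h3, mul_one]
        rw [h4]
        refine F.mul_mem ?_ (F.inv_mem ?_)
        · exact (Algebra.trace F K (lam * 1)).2
        · exact natCast_mem F _
      exact top_of_mem lam hinj F hlamF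

end Pool.Agent.K3h4.OC
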