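import Mathlib
import Pool.Agent.K3h4.OC.Semi
import Pool.Agent.K3h4.OC.Mat

/-! # Rational matrices which preserve an intersection of the hyperplanes -/

open Filter Topology H715R2 Matrix

namespace Pool.Agent.K3h4.OC

variable {d : ℕ}

/-- an integral basis of a rational subspace, with a left inverse -/
lemma int_basis (V : Submodule ℚ (Fin d → ℚ)) {k : ℕ} (hk : Module.finrank ℚ V = k) :
    ∃ (U : Matrix (Fin d) (Fin k) ℤ) (Y : Matrix (Fin k) (Fin d) ℝ),
      Y * U.map (Int.cast : ℤ → ℝ) = 1 ∧ ∀ s, (fun j => (U j s : ℚ)) ∈ V := by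
  classical
  let v := Module.finBasisOfFinrankEq ℚ V hk
  obtain ⟨N, hN⟩ : ∃ N : ℕ, N = ∏ s : Fin k, ∏ j : Fin d, ((v s : Fin d → ℚ) j).den := ⟨_, rfl⟩
  have hN0 : (N : ℚ) ≠ 0 := by
    rw [hN]
    push_cast
    exact Finset.prod_ne_zero_iff.2 fun s _ => Finset.prod_ne_zero_iff.2 fun j _ => by
      exact_mod_cast ((v s : Fin d → ℚ) j).den_ne_zero
  have hz : ∀ s j, ∃ z : ℤ, (z : ℚ) = N * (v s : Fin d → ℚ) j := by
    intro s j
    have hdvd : ((v s : Fin d → ℚ) j).den ∣ N := by
      rw [hN]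
      exact (Finset.dvd_prod_of_mem (fun j => ((v s : Fin d → ℚ) j).den) (Finset.mem_univ j)).trans
        (Finset.dvd_prod_of_mem (fun s => ∏ j : Fin d, ((v s : Fin d → ℚ) j).den)
          (Finset.mem_univ s))
    obtain ⟨e, he⟩ := hdvd
    refine ⟨e * ((v s : Fin d → ℚ) j).num, ?_⟩
    have h2 : (((v s : Fin d → ℚ) j).num : ℚ) = ((v s : Fin d → ℚ) j).den * (v s : Fin d → ℚ) j := by
      rw [mul_comm]; exact (Rat.mul_den_eq_num _).symm
    push_cast
    rw [h2, he]
    push_cast
    ring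
  choose z hz using hz
  obtain ⟨U, hU⟩ : ∃ U : Matrix (Fin d) (Fin k) ℤ, ∀ j s, U j s = z s j :=
    ⟨fun j s => z s j, fun j s => rfl⟩
  have hcol : ∀ s, (fun j => (U j s : ℚ)) = (N : ℚ) • (v s : Fin d → ℚ) := by
    intro s
    funext j
    rw [hU, hz]
    rfl
  obtain ⟨Uq, hUq⟩ : ∃ Uq : Matrix (Fin d) (Fin k) ℚ, Uq = U.map (Int.cast : ℤ → ℚ) := ⟨_, rfl⟩
  have hker : LinearMap.ker Uq.mulVecLin = ⊥ := by
    rw [LinearMap.ker_eq_bot']
    intro y hy
    rw [Matrix.mulVecLin_apply] at hy
    have h1 : ∑ s, y s • (v s : Fin d → ℚ) = 0 := by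
      have h2 : (N : ℚ) • ∑ s, y s • (v s : Fin d → ℚ) = Uq *ᵥ y := by
        funext j
        rw [Pi.smul_apply, Finset.sum_apply, Matrix.mulVec, dotProduct, smul_eq_mul,
          Finset.mul_sum]
        refine Finset.sum_congr rfl fun s _ => ?_
        rw [hUq, Matrix.map_apply, hU, hz, Pi.smul_apply, smul_eq_mul]
        ring
      rw [hy] at h2
      exact (smul_eq_zero.1 h2).resolve_left hN0
    have h3 : ∑ s, y s • v s = 0 := by
      apply Subtype.val_injective
      rw [Submodule.coe_sum]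
      simpa using h1
    have h4 := Fintype.linearIndependent_iff.1 v.linearIndependent y h3
    exact funext h4
  obtain ⟨g, hg⟩ := LinearMap.exists_leftInverse_of_injective Uq.mulVecLin hker
  have hgU : LinearMap.toMatrix' g * Uq = 1 := by
    have h1 : LinearMap.toMatrix' (g ∘ₗ Uq.mulVecLin) = LinearMap.toMatrix' g * Uq := by
      rw [LinearMap.toMatrix'_comp, ← Matrix.toLin'_apply', LinearMap.toMatrix'_toLin']
    rw [← h1, hg, LinearMap.toMatrix'_id]
  refine ⟨U, (LinearMap.toMatrix' g).map (Rat.cast : ℚ → ℝ), ?_, ?_⟩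
  · have h1 : U.map (Int.cast : ℤ → ℝ) = Uq.map (Rat.cast : ℚ → ℝ) := by
      ext i j
      rw [hUq, Matrix.map_apply, Matrix.map_apply, Matrix.map_apply]
      simp
    have h2 : (LinearMap.toMatrix' g).map (Rat.cast : ℚ → ℝ) * Uq.map (Rat.cast : ℚ → ℝ) =
        (LinearMap.toMatrix' g * Uq).map (Rat.cast : ℚ → ℝ) := by
      ext i j
      rw [Matrix.mul_apply, Matrix.map_apply, Matrix.mul_apply]
      push_cast
      rfl
    rw [h1, h2, hgU]
    ext i j
    rw [Matrix.map_apply]
    by_cases hij : i = j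
    · rw [hij, one_apply_eq, one_apply_eq]; simp
    · rw [one_apply_ne hij, one_apply_ne hij]; simp
  · intro s
    rw [hcol s]
    exact V.smul_mem _ (v s).2

/-- A nonzero rational matrix which preserves the intersection is invertible. -/
theorem det_ne_zero_of_invariant (h : Matrix (Fin d) (Fin d) ℝ) (hdet : h.det ≠ 0)
    (ν : ℝ) (hν : 0 < ν) (hnu : HasNu h ν) (I : Finset (Fin d)) (hco : Nat.Coprime I.card d)
    (B : Matrix (Fin d) (Fin d) ℚ)
    (hinv : ∀ x : Fin d → ℝ, (∀ i ∈ I, (h *ᵥ x) i = 0) →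
      ∀ i ∈ I, (h *ᵥ ((B.map (Rat.cast : ℚ → ℝ)) *ᵥ x)) i = 0) (hB : B ≠ 0) : B.det ≠ 0 := by
  classical
  intro hdB
  obtain ⟨BR, hBR⟩ : ∃ BR : Matrix (Fin d) (Fin d) ℝ, BR = B.map (Rat.cast : ℚ → ℝ) := ⟨_, rfl⟩
  obtain ⟨c, hc⟩ := rows_invariant hdet I hinv
  rw [← hBR] at hc
  obtain ⟨k, hk⟩ : ∃ k, Module.finrank ℚ (LinearMap.ker B.mulVecLin) = k := ⟨_, rfl⟩
  obtain ⟨k', hk'⟩ : ∃ k', Module.finrank ℚ (LinearMap.range B.mulVecLin) = k' := ⟨_, rfl⟩
  have hsum : k' + k = d := by
    have h1 := LinearMap.finrank_range_add_finrank_ker B.mulVecLin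
    rw [hk, hk', Module.finrank_fintype_fun_eq_card, Fintype.card_fin] at h1
    exact h1
  have hkpos : 0 < k := by
    rw [← hk]
    obtain ⟨v, hv0, hv⟩ := Matrix.exists_mulVec_eq_zero_iff.2 hdB
    have : Nontrivial (LinearMap.ker B.mulVecLin) := by
      refine ⟨⟨⟨v, ?_⟩, 0, ?_⟩⟩
      · rw [LinearMap.mem_ker, Matrix.mulVecLin_apply]; exact hv
      · intro h0
        exact hv0 (congrArg Subtype.val h0)
    exact Module.finrank_pos
  have hk'pos : 0 < k' := by
    rw [← hk']
    obtain ⟨j, hj⟩ : ∃ j, B *ᵥ Pi.single j 1 ≠ 0 := by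
      by_contra hcon
      push Not at hcon
      apply hB
      ext i j
      have h1 := congrFun (hcon j) i
      rw [Matrix.mulVec_single_one] at h1
      exact h1
    have : Nontrivial (LinearMap.range B.mulVecLin) := by
      refine ⟨⟨⟨B *ᵥ Pi.single j 1, ?_⟩, 0, ?_⟩⟩
      · exact ⟨Pi.single j 1, rfl⟩
      · intro h0
        exact hj (congrArg Subtype.val h0)
    exact Module.finrank_pos
  obtain ⟨U, Y, hYU, hUm⟩ := int_basis _ hk
  obtain ⟨U', Y', hYU', hUm'⟩ := int_basis _ hk'
  have s1 := semistable h hdet ν hν hnu I hkpos U Y hYU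
  have s2 := semistable h hdet ν hν hnu I hk'pos U' Y' hYU'
  obtain ⟨UR, hUR⟩ : ∃ UR : Matrix (Fin d) (Fin k) ℝ, UR = U.map (Int.cast : ℤ → ℝ) := ⟨_, rfl⟩
  obtain ⟨UR', hUR'⟩ : ∃ UR' : Matrix (Fin d) (Fin k') ℝ, UR' = U'.map (Int.cast : ℤ → ℝ) :=
    ⟨_, rfl⟩
  rw [← hUR] at s1
  rw [← hUR'] at s2
  -- relations
  have hBU : BR * UR = 0 := by
    ext i s
    have h1 := hUm s
    rw [LinearMap.mem_ker, Matrix.mulVecLin_apply] at h1
    have h2 := congrFun h1 i
    rw [Matrix.mulVec, dotProduct, Pi.zero_apply] at h2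
    rw [Matrix.mul_apply, hBR, hUR, Matrix.zero_apply]
    have h3 := congrArg (fun t : ℚ => (t : ℝ)) h2
    push_cast at h3
    simpa [Matrix.map_apply] using h3
  obtain ⟨Q, hQ⟩ : ∃ Q : Matrix (Fin d) (Fin k') ℝ, UR' = BR * Q := by
    choose q hq using hUm'
    refine ⟨fun j s => (q s j : ℝ), ?_⟩
    ext i s
    have h1 := congrFun (hq s) i
    rw [Matrix.mulVecLin_apply, Matrix.mulVec, dotProduct] at h1
    rw [Matrix.mul_apply, hBR, hUR', Matrix.map_apply]
    have h3 := congrArg (fun t : ℚ => (t : ℝ)) h1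
    push_cast at h3
    rw [← h3]
    rfl
  -- the span of the rows
  obtain ⟨S, hS⟩ : ∃ S : Submodule ℝ (Fin d → ℝ),
      S = Submodule.span ℝ ((fun i => h i) '' (I : Set (Fin d))) := ⟨_, rfl⟩
  have hSfr : Module.finrank ℝ S = I.card := by
    have hli : LinearIndependent ℝ (fun i => h i) := Matrix.linearIndependent_rows_of_det_ne_zero hdet
    have h1 : LinearIndependent ℝ (fun i : I => h i.1) := hli.comp (fun i : I => i.1) Subtype.val_injective
    have h2 := finrank_span_eq_card h1
    rw [Fintype.card_coe] at h2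
    have h3 : Set.range (fun i : I => h i.1) = (fun i => h i) '' (I : Set (Fin d)) := by
      ext x
      simp
    rw [← h2, hS, h3]
  have hmapU : ∀ {l : ℕ} (X : Matrix (Fin d) (Fin l) ℝ),
      Submodule.span ℝ ((fun i => (h * X) i) '' (I : Set (Fin d))) = S.map X.vecMulLinear := by
    intro l X
    rw [hS, Submodule.map_span]
    congr 1
    ext x
    constructor
    · rintro ⟨i, hi, rfl⟩
      exact ⟨h i, ⟨i, hi, rfl⟩, rfl⟩
    · rintro ⟨_, ⟨i, hi, rfl⟩, rfl⟩
      exact ⟨i, hi, rfl⟩
  rw [hmapU] at s1 s2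
  -- invariance of the span
  have hSB : S.map BR.vecMulLinear ≤ S := by
    rw [← hmapU BR, Submodule.span_le]
    rintro _ ⟨i, hi, rfl⟩
    have h1 : (h * BR) i = ∑ i' ∈ I, c i i' • h i' := by
      funext l
      rw [hc i hi l, Finset.sum_apply]
      rfl
    show (h * BR) i ∈ S
    rw [h1, hS]
    exact Submodule.sum_mem _ fun i' hi' => Submodule.smul_mem _ _ (Submodule.subset_span ⟨i', hi', rfl⟩)
  have hker : ∀ x ∈ S.map BR.vecMulLinear, UR.vecMulLinear x = 0 := by
    rintro _ ⟨y, hy, rfl⟩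
    rw [Matrix.vecMulLinear_apply, Matrix.vecMulLinear_apply, vecMul_vecMul, hBU, vecMul_zero]
  have hr' : Module.finrank ℝ (S.map UR'.vecMulLinear) ≤ Module.finrank ℝ (S.map BR.vecMulLinear) := by
    have h1 : S.map UR'.vecMulLinear = (S.map BR.vecMulLinear).map Q.vecMulLinear := by
      rw [← Submodule.map_comp]
      have h2 : UR'.vecMulLinear = Q.vecMulLinear ∘ₗ BR.vecMulLinear := by
        refine LinearMap.ext fun x => ?_
        rw [LinearMap.comp_apply, Matrix.vecMulLinear_apply, Matrix.vecMulLinear_apply,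
          Matrix.vecMulLinear_apply, vecMul_vecMul, hQ]
      rw [h2]
    rw [h1]
    exact Submodule.finrank_map_le _ _
  have hr : Module.finrank ℝ (S.map BR.vecMulLinear) + Module.finrank ℝ (S.map UR.vecMulLinear) ≤
      I.card := by
    have h1 := LinearMap.finrank_range_add_finrank_ker (UR.vecMulLinear.domRestrict S)
    rw [hSfr] at h1
    have h2 : LinearMap.range (UR.vecMulLinear.domRestrict S) = S.map UR.vecMulLinear := by
      ext x
      constructor
      · rintro ⟨y, rfl⟩
        exact ⟨y.1, y.2, rfl⟩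
      · rintro ⟨y, hy, rfl⟩
        exact ⟨⟨y, hy⟩, rfl⟩
    rw [h2] at h1
    have h3 : S.map BR.vecMulLinear ≤
        (LinearMap.ker (UR.vecMulLinear.domRestrict S)).map S.subtype := by
      intro x hx
      refine ⟨⟨x, hSB hx⟩, ?_, rfl⟩
      rw [SetLike.mem_coe, LinearMap.mem_ker]
      exact hker x hx
    have h4 := Submodule.finrank_mono h3
    have h5 := Submodule.finrank_map_le S.subtype (LinearMap.ker (UR.vecMulLinear.domRestrict S))
    omega
  obtain ⟨r, hrr⟩ : ∃ r, r = Module.finrank ℝ (S.map UR.vecMulLinear) := ⟨_, rfl⟩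
  obtain ⟨r', hrr'⟩ : ∃ r', r' = Module.finrank ℝ (S.map UR'.vecMulLinear) := ⟨_, rfl⟩
  rw [← hrr] at s1 hr
  rw [← hrr'] at s2 hr'
  have hsumr : r + r' ≤ I.card := by omega
  have e1 : k * I.card = r * d := by
    have h1 : (r + r') * d ≤ I.card * d := Nat.mul_le_mul_right d hsumr
    have h2 : (k + k') * I.card = I.card * d := by
      rw [add_comm k k', hsum, mul_comm]
    have h3 : (k + k') * I.card = k * I.card + k' * I.card := by ring
    have h4 : (r + r') * d = r * d + r' * d := by ring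
    omega
  have hdvd : d ∣ k * I.card := ⟨r, by rw [e1, mul_comm]⟩
  have h6 : d ∣ k := (Nat.Coprime.dvd_of_dvd_mul_right hco.symm hdvd)
  have h7 := Nat.le_of_dvd hkpos h6
  omega

/-- every root of the characteristic polynomial is a root of every annihilating polynomial -/
lemma root_of_annihilating (A : Matrix (Fin d) (Fin d) ℚ) (Q : Polynomial ℚ)
    (hQ : Polynomial.aeval A Q = 0) (α : ℂ) (hα : Polynomial.aeval α A.charpoly = 0) :
    Polynomial.aeval α Q = 0 := by
  classical
  obtain ⟨AC, hAC⟩ : ∃ AC : Matrix (Fin d) (Fin d) ℂ, AC = A.map (algebraMap ℚ ℂ) := ⟨_, rfl⟩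
  have hdet : (Matrix.scalar (Fin d) α - AC).det = 0 := by
    rw [← Matrix.eval_charpoly, hAC, Matrix.charpoly_map, Polynomial.eval_map_algebraMap]
    exact hα
  obtain ⟨v, hv0, hv⟩ := Matrix.exists_mulVec_eq_zero_iff.2 hdet
  have hev : AC *ᵥ v = α • v := by
    rw [Matrix.sub_mulVec, sub_eq_zero] at hv
    rw [← hv]
    funext i
    simp [Matrix.mulVec, dotProduct, Matrix.scalar_apply, Matrix.diagonal_apply]
  have hpol : ∀ R : Polynomial ℚ, (Polynomial.aeval AC R) *ᵥ v = (Polynomial.aeval α R) • v := by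
    intro R
    induction R using Polynomial.induction_on with
    | C a =>
      rw [Polynomial.aeval_C, Polynomial.aeval_C]
      funext i
      simp [Matrix.mulVec, dotProduct, Matrix.algebraMap_matrix_apply]
    | add R T hR hT => rw [map_add, map_add, Matrix.add_mulVec, hR, hT, add_smul]
    | monomial n a ih =>
      have h2 : (Polynomial.C a * Polynomial.X ^ (n + 1) : Polynomial ℚ) =
          Polynomial.X * (Polynomial.C a * Polynomial.X ^ n) := by ring
      have h3 : Polynomial.aeval AC (Polynomial.X * (Polynomial.C a * Polynomial.X ^ n)) =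
          AC * Polynomial.aeval AC (Polynomial.C a * Polynomial.X ^ n) := by
        rw [map_mul (Polynomial.aeval AC) Polynomial.X, Polynomial.aeval_X]
      have h4 : Polynomial.aeval α (Polynomial.X * (Polynomial.C a * Polynomial.X ^ n)) =
          α * Polynomial.aeval α (Polynomial.C a * Polynomial.X ^ n) := by
        rw [map_mul (Polynomial.aeval α) Polynomial.X, Polynomial.aeval_X]
      rw [h2, h3, h4, ← mulVec_mulVec, ih, Matrix.mulVec_smul, hev, smul_smul, mul_comm]
  have h1 : Polynomial.aeval AC Q = 0 := by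
    have h2 : AC = (Algebra.ofId ℚ ℂ).mapMatrix A := by
      rw [hAC]; rfl
    rw [h2, Polynomial.aeval_algHom_apply, hQ, map_zero]
  have h3 := hpol Q
  rw [h1, Matrix.zero_mulVec] at h3
  exact (smul_eq_zero.1 h3.symm).resolve_right hv0

/-- In prime dimension a rational matrix all of whose nonzero polynomials are invertible has an
irreducible characteristic polynomial, unless it is scalar. -/
theorem charpoly_irreducible (hd : d.Prime) (A : Matrix (Fin d) (Fin d) ℚ)
    (hA : ∀ a : ℚ, A ≠ a • (1 : Matrix (Fin d) (Fin d) ℚ))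
    (hdiv : ∀ Q : Polynomial ℚ, Polynomial.aeval A Q ≠ 0 → (Polynomial.aeval A Q).det ≠ 0) :
    Irreducible A.charpoly := by
  classical
  have hne : Nonempty (Fin d) := ⟨⟨0, hd.pos⟩⟩
  have hint : IsIntegral ℚ A := Algebra.IsIntegral.isIntegral A
  obtain ⟨μ, hμ⟩ : ∃ μ, μ = minpoly ℚ A := ⟨_, rfl⟩
  have hμm : μ.Monic := by rw [hμ]; exact minpoly.monic hint
  have hμA : Polynomial.aeval A μ = 0 := by rw [hμ]; exact minpoly.aeval ℚ A
  have hμ1 : ¬ IsUnit μ := by
    rw [hμ]; exact minpoly.not_isUnit ℚ A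
  have hirr : Irreducible μ := by
    refine ⟨hμ1, ?_⟩
    intro f g hfg
    have h1 : Polynomial.aeval A f * Polynomial.aeval A g = 0 := by
      rw [← map_mul, ← hfg, hμA]
    have hf0 : f ≠ 0 := by
      rintro rfl
      rw [zero_mul] at hfg
      exact hμm.ne_zero hfg
    have hg0 : g ≠ 0 := by
      rintro rfl
      rw [mul_zero] at hfg
      exact hμm.ne_zero hfg
    have hcase : ∀ f g : Polynomial ℚ, μ = f * g → f ≠ 0 → g ≠ 0 → Polynomial.aeval A f = 0 →
        IsUnit g := by
      intro f g hfg hf hg hAf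
      have h2 : μ ∣ f := by rw [hμ]; exact minpoly.dvd ℚ A hAf
      have h3 : f ∣ μ := ⟨g, hfg⟩
      have h4 := Polynomial.degree_le_of_dvd h2 hf
      rw [hfg, Polynomial.degree_mul] at h4
      have h5 : g.degree ≤ 0 := by
        have h6 : f.degree ≠ ⊥ := Polynomial.degree_ne_bot.2 hf
        rw [Polynomial.degree_eq_natDegree hf, Polynomial.degree_eq_natDegree hg] at h4
        rw [Polynomial.degree_eq_natDegree hg]
        have h7 : f.natDegree + g.natDegree ≤ f.natDegree := by exact_mod_cast h4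
        have h8 : g.natDegree = 0 := by omega
        rw [h8]; exact le_rfl
      exact Polynomial.isUnit_iff_degree_eq_zero.2 (le_antisymm h5 (by
        rw [Polynomial.degree_eq_natDegree hg]; exact_mod_cast Nat.zero_le _))
    by_cases hA0 : Polynomial.aeval A f = 0
    · exact Or.inr (hcase f g hfg hf0 hg0 hA0)
    · by_cases hA1 : Polynomial.aeval A g = 0
      · exact Or.inl (hcase g f (by rw [hfg, mul_comm]) hg0 hf0 hA1)
      · exfalso
        have h2 := congrArg Matrix.det h1
        rw [Matrix.det_mul, Matrix.det_zero] at h2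
        exact mul_ne_zero (hdiv f hA0) (hdiv g hA1) h2
  -- all irreducible factors of the characteristic polynomial are `μ`
  have hfac : ∀ p ∈ UniqueFactorizationMonoid.normalizedFactors A.charpoly, p = μ := by
    intro p hp
    have hpi := UniqueFactorizationMonoid.irreducible_of_normalized_factor p hp
    have hpd := UniqueFactorizationMonoid.dvd_of_mem_normalizedFactors hp
    have hpn := UniqueFactorizationMonoid.normalize_normalized_factor p hp
    have hpm : p.Monic := by
      rw [← hpn]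
      exact Polynomial.monic_normalize hpi.ne_zero
    obtain ⟨α, hα⟩ : ∃ α : ℂ, Polynomial.aeval α p = 0 := by
      have h1 : (p.map (algebraMap ℚ ℂ)).degree ≠ 0 := by
        rw [Polynomial.degree_map]
        exact (Polynomial.natDegree_pos_iff_degree_pos.1 hpi.natDegree_pos).ne'
      obtain ⟨α, hα⟩ := IsAlgClosed.exists_root _ h1
      refine ⟨α, ?_⟩
      rw [Polynomial.IsRoot, Polynomial.eval_map_algebraMap] at hα
      exact hα
    have hα2 : Polynomial.aeval α A.charpoly = 0 := by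
      obtain ⟨q, hq⟩ := hpd
      rw [hq, map_mul, hα, zero_mul]
    have hα3 := root_of_annihilating A μ hμA α hα2
    have h1 := minpoly.eq_of_irreducible_of_monic hpi hα hpm
    have h2 := minpoly.eq_of_irreducible_of_monic hirr hα3 hμm
    rw [h1, h2]
  have hprod : μ ^ (Multiset.card (UniqueFactorizationMonoid.normalizedFactors A.charpoly)) =
      A.charpoly := by
    have h1 := UniqueFactorizationMonoid.prod_normalizedFactors_eq (a := A.charpoly)
      A.charpoly_monic.ne_zero
    rw [Multiset.eq_replicate_card.2 hfac, Multiset.prod_replicate,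
      (A.charpoly_monic).normalize_eq_self] at h1
    exact h1
  obtain ⟨e, he⟩ : ∃ e, e = Multiset.card (UniqueFactorizationMonoid.normalizedFactors A.charpoly) :=
    ⟨_, rfl⟩
  rw [← he] at hprod
  have hdeg : e * μ.natDegree = d := by
    have h1 := congrArg Polynomial.natDegree hprod
    rw [hμm.natDegree_pow, Matrix.charpoly_natDegree_eq_dim, Fintype.card_fin] at h1
    exact h1
  have hμd : μ.natDegree ≠ 1 := by
    intro h1
    have h2 : μ = Polynomial.X + Polynomial.C (μ.coeff 0) := by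
      exact hμm.eq_X_add_C h1
    rw [h2, map_add, Polynomial.aeval_X, Polynomial.aeval_C] at hμA
    refine hA (-(μ.coeff 0)) ?_
    rw [eq_neg_of_add_eq_zero_left hμA, Algebra.algebraMap_eq_smul_one, neg_smul]
  have he1 : e = 1 := by
    have h1 : μ.natDegree ∣ d := ⟨e, by rw [mul_comm]; exact hdeg.symm⟩
    rcases (Nat.dvd_prime hd).1 h1 with h2 | h2
    · exact absurd h2 hμd
    · rw [h2] at hdeg
      exact Nat.eq_of_mul_eq_mul_right hd.pos (by rw [hdeg, one_mul])
  rw [he1, pow_one] at hprod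
  rw [← hprod]
  exact hirr

end Pool.Agent.K3h4.OC
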