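import Mathlib
import Pool.Agent.K3h4.OC.Prime

/-! # Lines spanned by a vector with coordinates in a number field of small degree -/

open Filter Topology H715R2 Matrix

namespace Pool.Agent.K3h4.OC

variable {d : ℕ}

/-- If `n - 1` of the forms vanish at a vector with coordinates in a real number field of degree at
most `n`, then the line is preserved by a rational matrix with irreducible characteristic
polynomial. -/
theorem exists_matrix_of_point (hd : 2 ≤ d) (h : Matrix (Fin d) (Fin d) ℝ) (hdet : h.det ≠ 0)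
    (ν : ℝ) (hν : 0 < ν) (hnu : HasNu h ν) (K : IntermediateField ℚ ℝ) [FiniteDimensional ℚ K]
    (hK : Module.finrank ℚ K ≤ d) (w : Fin d → ℝ) (hw0 : w ≠ 0) (hwK : ∀ j, w j ∈ K)
    (i₀ : Fin d) (hw : ∀ i, i ≠ i₀ → (h *ᵥ w) i = 0) :
    ∃ A : Matrix (Fin d) (Fin d) ℚ, Irreducible A.charpoly ∧ Pres h (Finset.univ.erase i₀) A := by
  classical
  -- the line
  have hline : ∀ x : Fin d → ℝ, (∀ i ∈ Finset.univ.erase i₀, (h *ᵥ x) i = 0) →
      ∃ c : ℝ, x = c • w := by
    intro x hx
    have hinj : ∀ y : Fin d → ℝ, h *ᵥ y = 0 → y = 0 := fun y hy =>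
      Matrix.eq_zero_of_mulVec_eq_zero hdet hy
    have hwi : (h *ᵥ w) i₀ ≠ 0 := by
      intro h0
      apply hw0
      apply hinj
      funext i
      by_cases hi : i = i₀
      · rw [hi]; exact h0
      · exact hw i hi
    refine ⟨(h *ᵥ x) i₀ / (h *ᵥ w) i₀, ?_⟩
    rw [← sub_eq_zero]
    apply hinj
    funext i
    rw [mulVec_sub, mulVec_smul, Pi.sub_apply, Pi.smul_apply, smul_eq_mul, Pi.zero_apply]
    by_cases hi : i = i₀
    · rw [hi]; field_simp; ring
    · rw [hw i hi, hx i (Finset.mem_erase.2 ⟨hi, Finset.mem_univ i⟩)]; ring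
  have hcardI : (Finset.univ.erase i₀ : Finset (Fin d)).card = d - 1 := by
    rw [Finset.card_erase_of_mem (Finset.mem_univ _), Finset.card_univ, Fintype.card_fin]
  have hco : Nat.Coprime (Finset.univ.erase i₀ : Finset (Fin d)).card d := by
    rw [hcardI]
    have h1 : Nat.Coprime (d - 1) (d - 1 + 1) := Nat.coprime_self_add_right.2 (Nat.coprime_one_right _)
    rwa [Nat.sub_add_cancel (by omega : 1 ≤ d)] at h1
  -- independence of the coordinates
  obtain ⟨wK, hwKv⟩ : ∃ wK : Fin d → K, ∀ j, ((wK j : K) : ℝ) = w j :=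
    ⟨fun j => ⟨w j, hwK j⟩, fun j => rfl⟩
  have hli : LinearIndependent ℚ wK := by
    rw [Fintype.linearIndependent_iff]
    intro q hq
    by_contra hcon
    push Not at hcon
    obtain ⟨j₀, hj₀⟩ := hcon
    obtain ⟨B, hB⟩ : ∃ B : Matrix (Fin d) (Fin d) ℚ, ∀ i j, B i j = if i = j₀ then q j else 0 :=
      ⟨fun i j => if i = j₀ then q j else 0, fun i j => rfl⟩
    have hqw : ∑ j, (q j : ℝ) * w j = 0 := by
      have h1 := congrArg (fun z : K => (z : ℝ)) hq
      simp only [ZeroMemClass.coe_zero] at h1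
      rw [← h1]
      push_cast
      refine Finset.sum_congr rfl fun j _ => ?_
      rw [Rat.smul_def, hwKv]
    have hBw : (B.map (Rat.cast : ℚ → ℝ)) *ᵥ w = 0 := by
      funext i
      rw [Matrix.mulVec, dotProduct, Pi.zero_apply]
      by_cases hi : i = j₀
      · rw [← hqw]
        refine Finset.sum_congr rfl fun j _ => ?_
        rw [Matrix.map_apply, hB, if_pos hi]
      · refine Finset.sum_eq_zero fun j _ => ?_
        rw [Matrix.map_apply, hB, if_neg hi]
        simp
    refine det_ne_zero_of_invariant h hdet ν hν hnu (Finset.univ.erase i₀) hco B ?_ ?_ ?_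
    · intro x hx i _
      obtain ⟨c, rfl⟩ := hline x hx
      rw [mulVec_smul, hBw, smul_zero, mulVec_zero, Pi.zero_apply]
    · intro h0
      apply hj₀
      have h1 := congrFun (congrFun h0 j₀) j₀
      rwa [hB, if_pos rfl] at h1
    · obtain ⟨i₁, hi₁⟩ : ∃ i₁ : Fin d, i₁ ≠ j₀ := by
        have : Nontrivial (Fin d) := Fin.nontrivial_iff_two_le.2 hd
        exact exists_ne j₀
      refine Matrix.det_eq_zero_of_row_eq_zero i₁ fun j => ?_
      rw [hB, if_neg hi₁]
  have hNF : NumberField K := { to_charZero := inferInstance, to_finiteDimensional := inferInstance }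
  have hcard : Fintype.card (Fin d) = Module.finrank ℚ K :=
    le_antisymm hli.fintype_card_le_finrank (by simpa using hK)
  have hne : Nonempty (Fin d) := ⟨⟨0, by omega⟩⟩
  obtain ⟨b, hb⟩ : ∃ b : Module.Basis (Fin d) ℚ K, ∀ j, b j = wK j :=
    ⟨basisOfLinearIndependentOfCardEqFinrank hli hcard, fun j => by
      simp [basisOfLinearIndependentOfCardEqFinrank]⟩
  obtain ⟨θ, hθ⟩ := Field.exists_primitive_element ℚ K
  obtain ⟨A, hA⟩ : ∃ A : Matrix (Fin d) (Fin d) ℚ, ∀ j, ∑ k, A j k • wK k = θ * wK j := by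
    refine ⟨fun j k => b.repr (θ * wK j) k, fun j => ?_⟩
    have h1 := b.sum_repr (θ * wK j)
    simp only [hb] at h1
    exact h1
  have hAw : (A.map (Rat.cast : ℚ → ℝ)) *ᵥ w = (θ : ℝ) • w := by
    funext j
    have h1 := congrArg (fun z : K => (z : ℝ)) (hA j)
    push_cast at h1
    rw [Pi.smul_apply, smul_eq_mul, ← hwKv j, ← h1, Matrix.mulVec, dotProduct]
    refine Finset.sum_congr rfl fun k _ => ?_
    rw [Matrix.map_apply, Rat.smul_def, hwKv]
  refine ⟨A, ?_, ?_⟩
  · have hdet0 : (Matrix.scalar (Fin d) (θ : ℝ) - A.map (algebraMap ℚ ℝ)).det = 0 := by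
      refine Matrix.exists_mulVec_eq_zero_iff.1 ⟨w, hw0, ?_⟩
      rw [Matrix.sub_mulVec, sub_eq_zero]
      have h2 : A.map (algebraMap ℚ ℝ) = A.map (Rat.cast : ℚ → ℝ) := rfl
      rw [h2, hAw]
      funext i
      simp [Matrix.mulVec, dotProduct, Matrix.scalar_apply, Matrix.diagonal_apply]
    have hroot : Polynomial.aeval (θ : ℝ) A.charpoly = 0 := by
      rw [← Matrix.eval_charpoly, Matrix.charpoly_map, Polynomial.eval_map_algebraMap] at hdet0
      exact hdet0
    have hint : IsIntegral ℚ θ := Algebra.IsIntegral.isIntegral θ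
    have hintR : IsIntegral ℚ (θ : ℝ) := hint.map K.val
    have hmin : minpoly ℚ (θ : ℝ) = minpoly ℚ θ := minpoly.algHom_eq K.val K.val.injective θ
    have hdeg : (minpoly ℚ θ).natDegree = d := by
      rw [← IntermediateField.adjoin.finrank hint, hθ, IntermediateField.finrank_top', ← hcard,
        Fintype.card_fin]
    have heq := Polynomial.eq_of_monic_of_dvd_of_natDegree_le (minpoly.monic hintR)
      A.charpoly_monic (minpoly.dvd ℚ (θ : ℝ) hroot) (by
        rw [hmin, hdeg, Matrix.charpoly_natDegree_eq_dim, Fintype.card_fin])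
    rw [heq]
    exact minpoly.irreducible hintR
  · intro x hx i hi
    obtain ⟨c, rfl⟩ := hline x hx
    rw [mulVec_smul, hAw, mulVec_smul, mulVec_smul, Pi.smul_apply, Pi.smul_apply,
      hw i (Finset.mem_erase.1 hi).1, smul_zero, smul_zero]

end Pool.Agent.K3h4.OC
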